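import Pool.Agent.TH669.KS.NT2
import Pool.Agent.H119R2.Kp.NT

set_option autoImplicit false

/-!
# Choice of the blocks
-/

namespace Pool.Agent.TH669.KS

/-- the number in the class `r` modulo 12 -/
theorem res_any (N : ℕ) : ∃ r, r < 12 ∧ ∀ q, 12 * q + r ≤ N →
    ¬ 4 ∣ 12 * q + r ∧ ¬ 4 ∣ N - (12 * q + r) ∧ ¬ 3 ∣ 12 * q + r ∧ ¬ 3 ∣ N - (12 * q + r) ∧
    ¬ (2 ∣ 12 * q + r ∧ 2 ∣ N - (12 * q + r)) := by
  have h : ∀ m : Fin 12, ∃ r : Fin 12, ¬ r.val % 4 = 0 ∧ ¬ (m.val + 12 - r.val) % 4 = 0 ∧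
      ¬ r.val % 3 = 0 ∧ ¬ (m.val + 12 - r.val) % 3 = 0 ∧
      ¬ (r.val % 2 = 0 ∧ (m.val + 12 - r.val) % 2 = 0) := by decide
  obtain ⟨r, h1, h2, h3, h4, h5⟩ := h ⟨N % 12, Nat.mod_lt _ (by norm_num)⟩
  refine ⟨r.val, r.2, fun q hq => ?_⟩
  simp only at h2 h4 h5
  have hr := r.2
  refine ⟨by omega, by omega, by omega, by omega, by omega⟩

theorem bounds (s w T p H r t q : ℕ) (h1 : 2 * s + w ≤ T) (h2 : T < 2 * s + w + p)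
    (h3 : 25 * p < 26 * s) (h4 : 4 * w ≤ s) (h6 : 48 * H ≤ w) (h7 : t < H)
    (h8 : r < 12) (hq1 : 24 * q ≤ T) (hq2 : T < 24 * q + 24) :
    s ≤ 12 * q + r + 12 * t ∧ 12 * q + r + 12 * t < 2 * s ∧ s ≤ T - (12 * q + r + 12 * t) ∧
      T - (12 * q + r + 12 * t) < 2 * s ∧ 12 * q + r + 12 * t ≤ T := by
  refine ⟨by omega, by omega, by omega, by omega, by omega⟩

/-- the choice of `j` -/
theorem pick (n m p : ℕ) (hp : 0 < p) (hm : m ≤ n) :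
    ∃ j T, n = j * p + T ∧ m ≤ T ∧ T < m + p := by
  refine ⟨(n - m) / p, m + (n - m) % p, ?_, by omega, ?_⟩
  · have := Nat.div_add_mod (n - m) p
    rw [mul_comm] at this
    omega
  · have := Nat.mod_lt (n - m) hp
    omega

theorem choice : ∃ s0 : ℕ, ∀ s n u : ℕ, s0 ≤ s → n = 2 * s + u → n ^ 4 ≤ u ^ 5 →
    ∃ p j b0 b1 : ℕ, p.Prime ∧ n = j * p + (b0 + b1) ∧ Squarefree b0 ∧ Squarefree b1 ∧
      Nat.Coprime b0 b1 ∧ s ≤ p ∧ p < 2 * s ∧ s ≤ b0 ∧ b0 < 2 * s ∧ s ≤ b1 ∧ b1 < 2 * s := by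
  obtain ⟨c0, hc0⟩ : ∃ c : ℕ, c = 17 ^ 4 := ⟨_, rfl⟩
  obtain ⟨c1, hc1⟩ : ∃ c : ℕ, c = 96 ^ 5 := ⟨_, rfl⟩
  have hc0' : 1 ≤ c0 := by rw [hc0]; norm_num
  have hc0m : ∀ x : ℕ, (17 * x) ^ 4 = c0 * x ^ 4 := fun x => by rw [hc0, mul_pow]
  have hc1m : ∀ x : ℕ, (96 * x) ^ 5 = c1 * x ^ 5 := fun x => by rw [hc1, mul_pow]
  clear hc0 hc1
  obtain ⟨N0, hN0⟩ := NT.nt2 (c0 * c1)
  obtain ⟨X0, hX0⟩ := Pool.Agent.H119R2.Kp.prime_between (1 / 25) (by norm_num)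
  refine ⟨max (max N0 X0) 1000, fun s n u hs hnu hu => ?_⟩
  have hs1 : N0 ≤ s := ((le_max_left _ _).trans (le_max_left _ _)).trans hs
  have hs2 : X0 ≤ s := ((le_max_right _ _).trans (le_max_left _ _)).trans hs
  have hs3 : 1000 ≤ s := (le_max_right _ _).trans hs
  obtain ⟨p, hp, hp1, hp2⟩ := hX0 (s : ℝ) (by exact_mod_cast hs2)
  have hp1' : s < p := by exact_mod_cast hp1
  have hp2' : 25 * p < 26 * s := by
    have : ((25 * p : ℕ) : ℝ) < ((26 * s : ℕ) : ℝ) := by push_cast; linarith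
    exact_mod_cast this
  clear hp1 hp2 hX0
  have hu200 : 200 ≤ u := by
    by_contra hcon
    have h1 : u ^ 5 ≤ 200 ^ 5 := Nat.pow_le_pow_left (by omega) 5
    have h2 : 2000 ^ 4 ≤ n ^ 4 := Nat.pow_le_pow_left (by omega) 4
    have h3 : (200 : ℕ) ^ 5 < 2000 ^ 4 := by norm_num
    exact absurd (h2.trans (hu.trans h1)) (not_le.2 h3)
  obtain ⟨w, hw1, hw2, hw3, hw4⟩ : ∃ w, w ≤ u ∧ 4 * w ≤ s ∧ 200 ≤ w ∧ (w = u ∨ s < 4 * w + 4) := by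
    rcases le_total u (s / 4) with h | h
    · exact ⟨u, le_rfl, by omega, hu200, Or.inl rfl⟩
    · exact ⟨s / 4, h, by omega, by omega, Or.inr (by omega)⟩
  obtain ⟨j, T, hT, hT3, hT4⟩ := pick n (2 * s + w) p hp.pos (by omega)
  obtain ⟨H, hH1, hH2⟩ : ∃ H, w ≤ 96 * H ∧ 48 * H ≤ w := ⟨w / 48, by omega, by omega⟩
  have hTn : T ≤ n := by
    rw [hT]
    exact Nat.le_add_left _ _
  have hTw : T ^ 4 ≤ c0 * w ^ 5 := by
    rcases hw4 with h1 | h1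
    · rw [h1]
      calc T ^ 4 ≤ n ^ 4 := Nat.pow_le_pow_left hTn 4
        _ ≤ u ^ 5 := hu
        _ ≤ c0 * u ^ 5 := Nat.le_mul_of_pos_left _ hc0'
    · have h2 : T ≤ 17 * w := by
        clear hT hu hnu hN0 hTn
        omega
      calc T ^ 4 ≤ (17 * w) ^ 4 := Nat.pow_le_pow_left h2 4
        _ = c0 * w ^ 4 := hc0m w
        _ ≤ c0 * w ^ 5 := Nat.mul_le_mul_left _
          (Nat.pow_le_pow_right (lt_of_lt_of_le (by norm_num) hw3) (by norm_num))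
  have hTK : T ^ 4 ≤ c0 * c1 * H ^ 5 := by
    calc T ^ 4 ≤ c0 * w ^ 5 := hTw
      _ ≤ c0 * (96 * H) ^ 5 := Nat.mul_le_mul_left _ (Nat.pow_le_pow_left hH1 5)
      _ = c0 * c1 * H ^ 5 := by rw [hc1m, mul_assoc]
  obtain ⟨r, hr, hr'⟩ := res_any T
  obtain ⟨q, hq1, hq2⟩ : ∃ q, 24 * q ≤ T ∧ T < 24 * q + 24 := ⟨T / 24, by omega, by omega⟩
  clear hu hTw hw4
  have hH0 : 0 < H := by omega
  obtain ⟨f1, -, -, -, f5⟩ := bounds s w T p H r 0 q hT3 hT4 hp2' hw2 hH2 hH0 hr hq1 hq2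
  obtain ⟨d1, d2, d3, d4, d5⟩ := hr' q (by simpa using f5)
  have g1 : 0 < 12 * q + r := by omega
  have g2 : 12 * q + r + 12 * H ≤ T := by
    obtain ⟨H', rfl⟩ : ∃ H', H = H' + 1 := ⟨H - 1, by omega⟩
    obtain ⟨-, -, g3, -, g5⟩ := bounds s w T p (H' + 1) r H' q hT3 hT4 hp2' hw2 hH2
      (Nat.lt_succ_self _) hr hq1 hq2
    omega
  obtain ⟨t, ht, hsq, hsq', hcop⟩ := hN0 T (by omega) (12 * q + r) H hTK g1 g2 d1 d2 d3 d4 d5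
  obtain ⟨b1, b2, b3, b4, b5⟩ := bounds s w T p H r t q hT3 hT4 hp2' hw2 hH2 ht hr hq1 hq2
  refine ⟨p, j, 12 * q + r + 12 * t, T - (12 * q + r + 12 * t), hp, ?_, hsq, hsq',
    hcop, hp1'.le, by omega, b1, b2, b3, b4⟩
  rw [Nat.add_sub_cancel' b5]
  exact hT

end Pool.Agent.TH669.KS
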