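import Pool.Agent.TH669.KS.HamCycle

set_option autoImplicit false
set_option linter.unusedSectionVars false

/-!
# Graphs with a long cycle; graphs without one are sparse
-/

namespace Pool.Agent.TH669.KS

open Finset

/-- `G` contains a cycle of length at least `s` -/
def HasC {V : Type} (G : SimpleGraph V) (s : ℕ) : Prop :=
  ∃ t, s ≤ t ∧ (SimpleGraph.cycleGraph t).IsContained G

theorem hasC_of_fun {V : Type} (G : SimpleGraph V) (s t : ℕ) (hst : s ≤ t) (ht : 1 ≤ t) (f : ℕ → V)
    (hinj : ∀ i j, i < t → j < t → f i = f j → i = j)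
    (hadj : ∀ i, i + 1 < t → G.Adj (f i) (f (i + 1))) (hcl : G.Adj (f (t - 1)) (f 0)) :
    HasC G s := by
  refine ⟨t, hst, ⟨⟨⟨fun i => f i.val, ?_⟩, ?_⟩⟩⟩
  · have key : ∀ u v : Fin t, (v - u).val = 1 → G.Adj (f u.val) (f v.val) := by
      intro u v h
      have hu := u.2
      have hv := v.2
      rw [Fin.sub_def] at h
      simp only at h
      rcases Nat.lt_or_ge (t - u.val + v.val) t with h1 | h1
      · rw [Nat.mod_eq_of_lt h1] at h
        have h2 : v.val = 0 := by omega
        have h3 : u.val = t - 1 := by omega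
        rw [h2, h3]
        exact hcl
      · rw [Nat.mod_eq_sub_mod h1] at h
        rcases Nat.lt_or_ge (t - u.val + v.val - t) t with h2 | h2
        · rw [Nat.mod_eq_of_lt h2] at h
          have h3 : v.val = u.val + 1 := by omega
          rw [h3]
          exact hadj _ (by omega)
        · omega
    intro u v h
    rw [SimpleGraph.cycleGraph_adj'] at h
    rcases h with h | h
    · exact (key v u h).symm
    · exact key u v h
  · intro u v h
    exact Fin.ext (hinj _ _ u.2 v.2 h)

theorem hasC_of_list {V : Type} (G : SimpleGraph V) (s : ℕ) (L : List V) (hs : s ≤ L.length)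
    (h1 : L.Nodup) (h2 : L.IsChain G.Adj) {α β : V} (h3 : L.head? = some α)
    (h4 : L.getLast? = some β) (h5 : G.Adj β α) : HasC G s := by
  have hne : L ≠ [] := by
    rintro rfl
    simp at h3
  have hlen : 1 ≤ L.length := List.length_pos_of_ne_nil hne
  refine hasC_of_fun G s L.length hs hlen (fun i => L.getD i α) ?_ ?_ ?_
  · intro i j hi hj h
    simp only [List.getD_eq_getElem _ _ hi, List.getD_eq_getElem _ _ hj] at h
    exact (List.Nodup.getElem_inj_iff h1).1 h
  · intro i hi
    simp only [List.getD_eq_getElem _ _ hi, List.getD_eq_getElem _ _ (Nat.lt_of_succ_lt hi)]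
    rw [List.isChain_iff_getElem] at h2
    exact h2 i hi
  · have e1 : L.getD (L.length - 1) α = β := by
      rw [List.getD_eq_getElem _ _ (by omega)]
      rw [List.getLast?_eq_getElem?, List.getElem?_eq_getElem (by omega)] at h4
      simpa using h4
    have e2 : L.getD 0 α = α := by
      rw [List.getD_eq_getElem _ _ (by omega)]
      rw [List.head?_eq_getElem?, List.getElem?_eq_getElem (by omega)] at h3
      simpa using h3
    simp only [e1, e2]
    exact h5

theorem HasC.map {V W : Type} {G : SimpleGraph V} {H : SimpleGraph W} {s : ℕ} (h : HasC G s)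
    (f : V → W) (hf : Function.Injective f) (hadj : ∀ u v, G.Adj u v → H.Adj (f u) (f v)) :
    HasC H s := by
  obtain ⟨t, ht, ⟨c⟩⟩ := h
  refine ⟨t, ht, ⟨⟨⟨fun i => f (c i), fun {u v} huv => hadj _ _ (c.toHom.map_adj huv)⟩, ?_⟩⟩⟩
  intro u v huv
  exact c.injective (hf huv)

theorem low_degree {V : Type} [DecidableEq V] (G : SimpleGraph V) [DecidableRel G.Adj] (s : ℕ)
    (hs3 : 3 ≤ s) (hs : ¬ HasC G s) (U : Finset V) (hU : U.Nonempty) :
    ∃ x ∈ U, (U.filter fun y => G.Adj x y).card ≤ s := by
  classical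
  set p : ℕ → Prop := fun m => ∃ l : List V, l.Nodup ∧ l.IsChain G.Adj ∧ (∀ x ∈ l, x ∈ U) ∧
    l.length = m with hp
  have hps : ∀ m, p m → m ≤ U.card := by
    rintro m ⟨l, h1, h2, h3, rfl⟩
    rw [← List.toFinset_card_of_nodup h1]
    exact Finset.card_le_card fun x hx => h3 x (List.mem_toFinset.1 hx)
  obtain ⟨x0, hx0⟩ := hU
  have hp1 : p 1 := ⟨[x0], by simp, by simp, by simpa using hx0, rfl⟩
  have h1 := Nat.findGreatest_spec (P := p) (hps 1 hp1) hp1
  have h2 : 1 ≤ Nat.findGreatest p U.card := Nat.le_findGreatest (hps 1 hp1) hp1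
  obtain ⟨l, hl1, hl2, hl3, hl4⟩ := h1
  rcases l with _ | ⟨x, l⟩
  · simp only [List.length_nil] at hl4
    omega
  refine ⟨x, hl3 x (by simp), ?_⟩
  have hsub : ∀ y ∈ U, G.Adj x y → y ∈ l := by
    intro y hyU hxy
    have hyx : y ≠ x := fun h => hxy.ne h.symm
    by_contra hyl
    have h3 : p (Nat.findGreatest p U.card + 1) := by
      refine ⟨y :: x :: l, ?_, ?_, ?_, by simp [← hl4]⟩
      · rw [List.nodup_cons]
        exact ⟨by simp [hyx, hyl], hl1⟩
      · rw [List.isChain_cons_cons]
        exact ⟨hxy.symm, hl2⟩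
      · intro z hz
        rw [List.mem_cons] at hz
        rcases hz with rfl | hz
        · exact hyU
        · exact hl3 z hz
    have h4 := Nat.le_findGreatest (hps _ h3) h3
    omega
  by_contra hcon
  rw [not_le] at hcon
  -- a neighbour far away on the list
  obtain ⟨i, hi, his, hadj⟩ : ∃ i, ∃ hi : i < l.length, s ≤ i + 1 ∧ G.Adj x l[i] := by
    by_contra hno
    push Not at hno
    have h3 : (U.filter fun y => G.Adj x y) ⊆ (l.take (s - 1)).toFinset := by
      intro y hy
      rw [Finset.mem_filter] at hy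
      have hyl := hsub y hy.1 hy.2
      rw [List.mem_toFinset, List.mem_take_iff_getElem]
      obtain ⟨i, hi, rfl⟩ := List.mem_iff_getElem.1 hyl
      have h4 : i + 1 < s := by
        by_contra hge
        exact hno i hi (by omega) hy.2
      exact ⟨i, by omega, rfl⟩
    have h4 := (Finset.card_le_card h3).trans (List.toFinset_card_le _)
    rw [List.length_take] at h4
    omega
  refine hs (hasC_of_list G s ((x :: l).take (i + 2)) ?_ (hl1.sublist (List.take_sublist _ _))
    (hl2.take _) (α := x) (β := l[i]) ?_ ?_ hadj.symm)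
  · rw [List.length_take, List.length_cons]
    omega
  · simp
  · rw [List.getLast?_eq_getElem?, List.length_take, List.length_cons]
    have e1 : min (i + 2) (l.length + 1) - 1 = i + 1 := by omega
    rw [e1, List.getElem?_take_of_lt (by omega)]
    simp [hi]

theorem pairs_le {V : Type} [DecidableEq V] (G : SimpleGraph V) [DecidableRel G.Adj] (s : ℕ)
    (hs3 : 3 ≤ s) (hs : ¬ HasC G s) : ∀ (m : ℕ) (U : Finset V), U.card = m →
    ((U ×ˢ U).filter fun x => G.Adj x.1 x.2).card ≤ 2 * s * m := by
  intro m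
  induction m with
  | zero =>
    intro U hU
    rw [Finset.card_eq_zero] at hU
    subst hU
    simp
  | succ m ih =>
    intro U hU
    have hne : U.Nonempty := Finset.card_pos.1 (by omega)
    obtain ⟨x, hx, hd⟩ := low_degree G s hs3 hs U hne
    have h1 := ih (U.erase x) (by rw [Finset.card_erase_of_mem hx]; omega)
    have h2 : ((U ×ˢ U).filter fun x => G.Adj x.1 x.2) ⊆
        (((U.erase x) ×ˢ (U.erase x)).filter fun x => G.Adj x.1 x.2) ∪
        ((U.filter fun y => G.Adj x y).image (fun y => (x, y)) ∪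
          (U.filter fun y => G.Adj x y).image (fun y => (y, x))) := by
      rintro ⟨a, c⟩ hac
      rw [Finset.mem_filter, Finset.mem_product] at hac
      obtain ⟨⟨ha, hc⟩, hadj⟩ := hac
      simp only at ha hc hadj
      rw [Finset.mem_union, Finset.mem_union, Finset.mem_image, Finset.mem_image,
        Finset.mem_filter, Finset.mem_product, Finset.mem_erase, Finset.mem_erase]
      by_cases hax : a = x
      · subst hax
        exact Or.inr (Or.inl ⟨c, Finset.mem_filter.2 ⟨hc, hadj⟩, rfl⟩)
      · by_cases hcx : c = x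
        · subst hcx
          exact Or.inr (Or.inr ⟨a, Finset.mem_filter.2 ⟨ha, hadj.symm⟩, rfl⟩)
        · exact Or.inl ⟨⟨⟨hax, ha⟩, ⟨hcx, hc⟩⟩, hadj⟩
    have h3 := (Finset.card_le_card h2).trans ((Finset.card_union_le _ _).trans
      (Nat.add_le_add_left (Finset.card_union_le _ _) _))
    have h4 := Finset.card_image_le (s := U.filter fun y => G.Adj x y) (f := fun y => (x, y))
    have h5 := Finset.card_image_le (s := U.filter fun y => G.Adj x y) (f := fun y => (y, x))
    have h6 : 2 * s * (m + 1) = 2 * s * m + s + s := by ring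
    omega

theorem edges_le {n : ℕ} (G : SimpleGraph (Fin n)) (s : ℕ) (hs3 : 3 ≤ s) (hs : ¬ HasC G s) :
    G.edgeSet.ncard ≤ 2 * s * n := by
  classical
  have h1 := pairs_le G s hs3 hs n Finset.univ (by simp)
  have h2 : G.edgeSet ⊆ (((Finset.univ ×ˢ Finset.univ).filter
      (fun x : Fin n × Fin n => G.Adj x.1 x.2)).image (fun x => s(x.1, x.2)) : Finset _) := by
    intro e he
    induction e using Sym2.ind with
    | _ a c =>
    rw [Finset.mem_coe, Finset.mem_image]
    exact ⟨(a, c), by simpa using he, rfl⟩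
  have h3 := Set.ncard_le_ncard h2
  rw [Set.ncard_coe_finset] at h3
  exact h3.trans (Finset.card_image_le.trans h1)

theorem hasC_top {n s : ℕ} (hs : s ≤ n) : HasC (⊤ : SimpleGraph (Fin n)) s := by
  refine ⟨n, hs, ⟨⟨⟨id, fun {u v} h => h.ne⟩, fun _ _ h => h⟩⟩⟩

end Pool.Agent.TH669.KS
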