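import Pool.Agent.TH669.KS.Gen
import Pool.Agent.TH669.KS.Cycles
import Pool.Agent.TH669.KC.Defs

set_option autoImplicit false
set_option linter.unusedSectionVars false

/-!
# The block theorem
-/

namespace Pool.Agent.TH669.KS

open Finset
open Pool.Agent.H119R2.Kp (GP PV)
open Pool.Agent.TH669.KP (sgn bit GR GR_adj bit_pos bit_neg bit_congr bit_not bit_and sum_sgn
  sgn_sum sgn_sigma sum_split sum_sigma_fun sum_prod_fun)
open Pool.Agent.TH669.KC (Pr Cl cls cls_zero cls_of_ne cls_neg HCR CR Con hcr_map)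

section

variable {I : Type} {A : I → Type} [∀ i, AddCommGroup (A i)] [∀ i, DecidableEq (A i)]
  [DecidableEq I]

theorem adj_same (χ : Js A → Bool) (i : I) (x y : A i) :
    (Gs χ).Adj ⟨i, x⟩ ⟨i, y⟩ ↔ x - y ∈ SS (fun d => χ (.inr ⟨i, d⟩)) := by
  rw [GR_adj, ob_same]
  constructor
  · rintro ⟨j, hj, h⟩
    rw [Option.map_eq_some_iff] at hj
    obtain ⟨d, hd, rfl⟩ := hj
    exact ⟨d, hd, h⟩
  · rintro ⟨d, hd, h⟩
    refine ⟨.inr ⟨i, d⟩, ?_, h⟩
    rw [hd]
    rfl

theorem adj_diff (χ : Js A → Bool) {i j : I} (hij : i ≠ j) (x : A i) (y : A j) :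
    (Gs χ).Adj ⟨i, x⟩ ⟨j, y⟩ ↔
      χ (.inl ⟨s(i, j), by rw [Sym2.mk_isDiag_iff]; exact hij⟩) = true := by
  rw [GR_adj, ob_diff hij]
  constructor
  · rintro ⟨e, he, h⟩
    simp only [Option.some.injEq] at he
    rw [he]
    exact h
  · intro h
    exact ⟨_, rfl, h⟩

variable [Fintype I] [∀ i, Fintype (A i)]

theorem win_inner {s : ℕ} (χ : Js A → Bool) (i : I)
    (hg : gn (fun d => χ (.inr ⟨i, d⟩)) = ⊤) (h3 : 3 ≤ Fintype.card (A i))
    (hs : s ≤ Fintype.card (A i)) : HasC (Gs χ) s := by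
  obtain ⟨L, α, β, hL, hlen⟩ := ham_cycle (SS fun d => χ (.inr ⟨i, d⟩)) hg
    (by rwa [Nat.card_eq_fintype_card])
  rw [Nat.card_eq_fintype_card] at hlen
  have hadj : ∀ x y : A i, Pool.Agent.TH669.KP.Stp (SS fun d => χ (.inr ⟨i, d⟩)) x y →
      (Gs χ).Adj ⟨i, x⟩ ⟨i, y⟩ := by
    intro x y h
    rcases h with h | h
    · exact ((adj_same χ i y x).2 h).symm
    · exact (adj_same χ i x y).2 h
  refine hasC_of_list (Gs χ) s (L.map fun x => (⟨i, x⟩ : Vs A)) ?_ ?_ ?_ (α := ⟨i, α⟩)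
    (β := ⟨i, β⟩) ?_ ?_ (hadj _ _ hL.cl)
  · rw [List.length_map, hlen]
    exact hs
  · refine hL.nd.map ?_
    intro x y hxy
    simpa using hxy
  · exact List.isChain_map_of_isChain _ hadj hL.ch
  · rw [List.head?_map, hL.hd]
    rfl
  · rw [List.getLast?_map, hL.lt]
    rfl

theorem win_cross {s : ℕ} (hs : 1 ≤ s) (χ : Js A → Bool) {i j : I} (hij : i ≠ j)
    (h : χ (.inl ⟨s(i, j), by rw [Sym2.mk_isDiag_iff]; exact hij⟩) = true)
    (hi : s ≤ Fintype.card (A i)) (hj : s ≤ Fintype.card (A j)) : HasC (Gs χ) s := by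
  classical
  have key : ∀ i : I, s ≤ Fintype.card (A i) → ∃ f : ℕ → A i, ∀ a b, a < s → b < s →
      f a = f b → a = b := by
    intro i hi
    have e : Fin (Fintype.card (A i)) ≃ A i := (Fintype.equivFin (A i)).symm
    refine ⟨fun a => if h : a < Fintype.card (A i) then e ⟨a, h⟩ else 0, ?_⟩
    intro a b ha hb hab
    simp only [dif_pos (lt_of_lt_of_le ha hi), dif_pos (lt_of_lt_of_le hb hi)] at hab
    have := e.injective hab
    simpa using this
  obtain ⟨f, hf⟩ := key i hi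
  obtain ⟨g, hg⟩ := key j hj
  have hadj : ∀ (x : A i) (y : A j), (Gs χ).Adj ⟨i, x⟩ ⟨j, y⟩ := fun x y =>
    (adj_diff χ hij x y).2 h
  refine hasC_of_fun (Gs χ) s (2 * s) (by omega) (by omega)
    (fun k => if k % 2 = 0 then ⟨i, f (k / 2)⟩ else ⟨j, g (k / 2)⟩) ?_ ?_ ?_
  · intro a b ha hb hab
    by_cases h1 : a % 2 = 0
    · by_cases h2 : b % 2 = 0
      · rw [if_pos h1, if_pos h2] at hab
        simp only [Sigma.mk.injEq, heq_eq_eq, true_and] at hab
        have := hf _ _ (by omega) (by omega) hab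
        omega
      · rw [if_pos h1, if_neg h2] at hab
        simp only [Sigma.mk.injEq] at hab
        exact absurd hab.1 hij
    · by_cases h2 : b % 2 = 0
      · rw [if_neg h1, if_pos h2] at hab
        simp only [Sigma.mk.injEq] at hab
        exact absurd hab.1 hij.symm
      · rw [if_neg h1, if_neg h2] at hab
        simp only [Sigma.mk.injEq, heq_eq_eq, true_and] at hab
        have := hg _ _ (by omega) (by omega) hab
        omega
  · intro a ha
    by_cases h1 : a % 2 = 0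
    · rw [if_pos h1, if_neg (by omega)]
      exact hadj _ _
    · rw [if_neg h1, if_pos (by omega)]
      exact (hadj _ _).symm
  · rw [if_neg (by omega), if_pos (by norm_num)]
    exact (hadj _ _).symm

theorem lose {s : ℕ} (hs : 1 ≤ s) (χ : Js A → Bool) (h1 : ∀ e, χ (.inl e) = false)
    (h2 : ∀ i, gn (fun d => χ (.inr ⟨i, d⟩)) ≠ ⊤)
    (hsub : ∀ i (H : AddSubgroup (A i)), H ≠ ⊤ → Nat.card H < s) : ¬ HCR 0 s (Gs χ) := by
  classical
  rintro ⟨U, hU, hcon, -⟩
  obtain ⟨⟨i, x⟩, hx⟩ : U.Nonempty := Finset.card_pos.1 (by omega)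
  set H := gn (fun d => χ (.inr ⟨i, d⟩)) with hH
  set B : Finset (Vs A) := U.filter fun u => ∃ z ∈ H, u = ⟨i, x + z⟩ with hB
  have hBU : B = U := by
    by_contra hne
    obtain ⟨a, ha, c, hc, hcB, hac⟩ := hcon B (Finset.filter_subset _ _)
      ⟨⟨i, x⟩, Finset.mem_filter.2 ⟨hx, 0, H.zero_mem, by rw [add_zero]⟩⟩ hne
    rw [hB, Finset.mem_filter] at ha
    obtain ⟨_, z, hz, rfl⟩ := ha
    apply hcB
    rw [hB, Finset.mem_filter]
    refine ⟨hc, ?_⟩
    rcases c with ⟨j, y⟩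
    by_cases hij : i = j
    · subst hij
      rw [adj_same] at hac
      have h3 : x + z - y ∈ H := AddSubgroup.subset_closure hac
      refine ⟨y - x, ?_, by rw [add_sub_cancel]⟩
      have h4 : y - x = z - (x + z - y) := by abel
      rw [h4]
      exact H.sub_mem hz h3
    · rw [adj_diff χ hij, h1] at hac
      cases hac
  have hcard : U.card ≤ Nat.card H := by
    rw [← hBU, Nat.card_eq_fintype_card, ← Finset.card_univ]
    refine (Finset.card_le_card (t := (Finset.univ : Finset H).image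
      fun z => (⟨i, x + z.1⟩ : Vs A)) ?_).trans Finset.card_image_le
    intro u hu
    rw [hB, Finset.mem_filter] at hu
    obtain ⟨_, z, hz, rfl⟩ := hu
    exact Finset.mem_image.2 ⟨⟨z, hz⟩, Finset.mem_univ _, rfl⟩
  have := hsub i H (h2 i)
  omega

theorem bit_forall {X : Type} [Fintype X] (p : X → Prop) : bit (∀ x, p x) = ∏ x, bit (p x) := by
  classical
  by_cases h : ∀ x, p x
  · rw [bit_pos h]
    exact (Finset.prod_eq_one fun x _ => bit_pos (h x)).symm
  · rw [bit_neg h]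
    push Not at h
    obtain ⟨x, hx⟩ := h
    exact (Finset.prod_eq_zero (Finset.mem_univ x) (bit_neg hx)).symm

theorem sum_false {X : Type} [Fintype X] [DecidableEq X] :
    ∑ κ : X → Bool, sgn κ * bit (∀ e, κ e = false) = 1 := by
  rw [Finset.sum_eq_single (fun _ => false)]
  · rw [bit_pos (fun _ => rfl)]
    simp [sgn]
  · intro κ _ hκ
    rw [bit_neg, mul_zero]
    intro h
    exact hκ (funext h)
  · intro h
    exact absurd (Finset.mem_univ _) h

/-- **The block theorem.** -/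
theorem blocks {n q s : ℕ} {Q : SimpleGraph (Fin n) → Prop} (hQ : GP n q Q)
    (hlow : ∀ H, HasC H s → Q H) (hup : ∀ H, Q H → HCR 0 s H)
    (hV : Fintype.card (Vs A) = n) (p : ℕ) [Fact p.Prime] {ι : Type} [Fintype ι]
    (a : ι → ∀ i, A i) (c : ∀ i, A i) (hap : ∀ i, p • a i = 0)
    (hgen : ∀ t : ∀ i, A i, t ∈ AddSubgroup.closure (insert c (Set.range a)))
    (hq : q < n.choose 2) (hs : 3 ≤ s) (hI : Nonempty I) (hA : ∀ i, s ≤ Fintype.card (A i))
    (hsub : ∀ i (H : AddSubgroup (A i)), H ≠ ⊤ → Nat.card H < s)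
    (hsq : ∀ i (x : A i), Squarefree (addOrderOf x)) : False := by
  classical
  have hrel := relation hQ hV p a c hap hgen hq
  have hCl : ∀ i, Nonempty (Cl (A i)) := by
    intro i
    obtain ⟨z, hz⟩ : ∃ z : A i, z ≠ 0 := by
      have : Nontrivial (A i) := Fintype.one_lt_card_iff_nontrivial.1 (by have := hA i; omega)
      exact exists_ne 0
    exact ⟨⟨s(z, -z), z, hz, rfl⟩⟩
  obtain ⟨i0⟩ := hI
  obtain ⟨d0⟩ := hCl i0
  have hJ : Nonempty (Js A) := ⟨.inr ⟨i0, d0⟩⟩
  set Ls : (Js A → Bool) → Prop := fun χ => (∀ e, χ (.inl e) = false) ∧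
    ∀ i, gn (fun d => χ (.inr ⟨i, d⟩)) ≠ ⊤ with hLs
  have hbit : ∀ χ : Js A → Bool, bit (PV Q (Vs A) (Gs χ)) = 1 - bit (Ls χ) := by
    intro χ
    rw [← bit_not]
    refine bit_congr ⟨?_, ?_⟩
    · rintro ⟨e, he⟩ ⟨h1, h2⟩
      refine lose (by omega) χ h1 h2 hsub ?_
      refine hcr_map (G := (Gs χ).map e.toEmbedding) e.symm ?_ (hup _ he)
      intro u v
      obtain ⟨u, rfl⟩ := e.surjective u
      obtain ⟨v, rfl⟩ := e.surjective v
      rw [Equiv.symm_apply_apply, Equiv.symm_apply_apply]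
      exact (SimpleGraph.map_adj_apply (f := e.toEmbedding)).symm
    · intro h
      have hC : HasC (Gs χ) s := by
        by_cases h1 : ∀ e, χ (.inl e) = false
        · have h2 : ¬ ∀ i, gn (fun d => χ (.inr ⟨i, d⟩)) ≠ ⊤ := fun h2 => h ⟨h1, h2⟩
          push Not at h2
          obtain ⟨i, hi⟩ := h2
          exact win_inner χ i hi (hs.trans (hA i)) (hA i)
        · push Not at h1
          obtain ⟨⟨e, he⟩, h1⟩ := h1
          induction e using Sym2.ind with
          | _ i j =>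
          have hij : i ≠ j := by rwa [Sym2.mk_isDiag_iff] at he
          exact win_cross (by omega) χ hij (by simpa using h1) (hA i) (hA j)
      let e : Vs A ≃ Fin n := Fintype.equivFinOfCardEq hV
      refine ⟨e, hlow _ (hC.map e e.injective fun u v huv => ?_)⟩
      exact (SimpleGraph.map_adj_apply (f := e.toEmbedding)).2 huv
  have h1 : ∑ χ : Js A → Bool, sgn χ * bit (Ls χ) = 0 := by
    have h2 : ∀ χ : Js A → Bool, sgn χ * bit (Ls χ) =
        sgn χ - sgn χ * bit (PV Q (Vs A) (Gs χ)) := by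
      intro χ
      rw [hbit]
      ring
    rw [Finset.sum_congr rfl fun χ _ => h2 χ, Finset.sum_sub_distrib, hrel, sum_sgn, sub_zero]
  have h2 : ∑ χ : Js A → Bool, sgn χ * bit (Ls χ) =
      (∑ κ : Pr I → Bool, sgn κ * bit (∀ e, κ e = false)) *
        ∏ i, ∑ χ : Cl (A i) → Bool, sgn χ * bit (gn χ ≠ ⊤) := by
    rw [sum_split, ← sum_prod_fun (fun i (χ : Cl (A i) → Bool) => sgn χ * bit (gn χ ≠ ⊤)),
      Finset.sum_mul]
    refine Finset.sum_congr rfl fun κ _ => ?_
    rw [sum_sigma_fun, Finset.mul_sum]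
    refine Finset.sum_congr rfl fun η _ => ?_
    rw [sgn_sum, sgn_sigma, hLs]
    simp only [Sum.elim_inl, Sum.elim_inr]
    rw [bit_and, bit_forall (fun i => gn (fun d => η i d) ≠ ⊤), Finset.prod_mul_distrib]
    ring
  rw [h2, sum_false, one_mul, Finset.prod_eq_zero_iff] at h1
  obtain ⟨i, _, hi⟩ := h1
  have := hCl i
  exact sum_not_gen (hsq i) hi

end

end Pool.Agent.TH669.KS
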