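import Pool.Agent.TH669.KS.Model

set_option autoImplicit false
set_option linter.unusedSectionVars false

/-!
# Signed sums over the generating symmetric subsets of an abelian group of squarefree exponent
-/

namespace Pool.Agent.TH669.KS

open Finset
open Pool.Agent.TH669.KP (sgn bit bit_pos bit_neg bit_congr bit_not toggle_zero sum_sgn)
open Pool.Agent.TH669.KC (Cl cls cls_zero cls_of_ne cls_inj cls_surj cls_ne_none)

section complement

variable {B : Type} [AddCommGroup B]

theorem zm_mem_of {x : B} {p : ℕ} (hp : p.Prime) (hx : addOrderOf x = p) {K : AddSubgroup B}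
    {c : ℤ} (hc : c • x ∈ K) (hxK : x ∉ K) : (p : ℤ) ∣ c := by
  by_contra hcon
  have hcop : IsCoprime c (p : ℤ) := by
    have h1 : IsCoprime (p : ℤ) c :=
      (Nat.prime_iff_prime_int.1 hp).coprime_iff_not_dvd.2 hcon
    exact h1.symm
  obtain ⟨u, v, huv⟩ := hcop
  apply hxK
  have h2 : x = u • (c • x) + v • ((p : ℤ) • x) := by
    rw [smul_smul, smul_smul, ← add_smul, huv, one_smul]
  have h3 : (p : ℤ) • x = 0 := by
    rw [← hx, natCast_zsmul, addOrderOf_nsmul_eq_zero]
  rw [h2, h3, smul_zero, add_zero]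
  exact K.zsmul_mem hc u

theorem sup_card [Finite B] {x : B} {p : ℕ} (hp : p.Prime) (hx : addOrderOf x = p)
    {H K : AddSubgroup B} (h : K ⊔ AddSubgroup.zmultiples x = H) (hxK : x ∉ K) :
    Nat.card H = Nat.card K * p := by
  have hinf : K ⊓ AddSubgroup.zmultiples x = ⊥ := by
    rw [eq_bot_iff]
    intro y hy
    rw [AddSubgroup.mem_inf, AddSubgroup.mem_zmultiples_iff] at hy
    obtain ⟨hyK, c, rfl⟩ := hy
    obtain ⟨d, rfl⟩ := zm_mem_of hp hx hyK hxK
    rw [AddSubgroup.mem_bot, mul_comm, mul_smul, ← hx, natCast_zsmul, addOrderOf_nsmul_eq_zero,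
      smul_zero]
  have h1 : (⊥ : AddSubgroup B).relIndex K * K.relIndex H = (⊥ : AddSubgroup B).relIndex H :=
    AddSubgroup.relIndex_mul_relIndex _ _ _ bot_le (h ▸ le_sup_left)
  have h2 : K.relIndex H = K.relIndex (AddSubgroup.zmultiples x) := by
    rw [← h, AddSubgroup.relIndex_sup_left]
  have h3 : (⊥ : AddSubgroup B).relIndex (K ⊓ AddSubgroup.zmultiples x) *
      (K ⊓ AddSubgroup.zmultiples x).relIndex (AddSubgroup.zmultiples x) =
      (⊥ : AddSubgroup B).relIndex (AddSubgroup.zmultiples x) :=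
    AddSubgroup.relIndex_mul_relIndex _ _ _ bot_le inf_le_right
  rw [AddSubgroup.inf_relIndex_right, AddSubgroup.relIndex_bot_left,
    AddSubgroup.relIndex_bot_left, hinf, Nat.card_zmultiples, hx] at h3
  rw [AddSubgroup.relIndex_bot_left, AddSubgroup.relIndex_bot_left, h2] at h1
  have h4 : Nat.card (⊥ : AddSubgroup B) = 1 := by simp
  rw [h4, one_mul] at h3
  rw [← h1, h3]

theorem exists_compl [Finite B] (hsq : ∀ x : B, Squarefree (addOrderOf x)) {x : B} {p : ℕ}
    (hp : p.Prime) (hx : addOrderOf x = p) {H : AddSubgroup B} (hxH : x ∈ H) :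
    ∃ K : AddSubgroup B, K ⊔ AddSubgroup.zmultiples x = H ∧ x ∉ K := by
  have hx0 : x ≠ 0 := by
    rintro rfl
    rw [addOrderOf_zero] at hx
    exact hp.one_lt.ne hx
  have hpx : (p : ℤ) • x = 0 := by
    rw [← hx, natCast_zsmul, addOrderOf_nsmul_eq_zero]
  obtain ⟨K, ⟨hKH, hxK⟩, hmax⟩ := Set.Finite.exists_maximal
    (s := {K : AddSubgroup B | K ≤ H ∧ x ∉ K}) (Set.toFinite _)
    ⟨⊥, bot_le, fun h => hx0 (AddSubgroup.mem_bot.1 h)⟩
  refine ⟨K, ?_, hxK⟩
  set M := K ⊔ AddSubgroup.zmultiples x with hM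
  have hMH : M ≤ H := sup_le hKH (by rwa [AddSubgroup.zmultiples_le])
  have hxM : x ∈ M := (le_sup_right : AddSubgroup.zmultiples x ≤ M)
    (AddSubgroup.mem_zmultiples x)
  have hKM : K ≤ M := le_sup_left
  by_contra hne
  obtain ⟨y, hyH, hyM⟩ : ∃ y ∈ H, y ∉ M := by
    by_contra hcon
    push Not at hcon
    exact hne (le_antisymm hMH hcon)
  -- an element `y'` outside `M` with a prime multiple in `M`
  obtain ⟨y', q, hq, hy'H, hy'M, hqy'⟩ : ∃ (y' : B) (q : ℕ), q.Prime ∧ y' ∈ H ∧ y' ∉ M ∧
      q • y' ∈ M := by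
    classical
    have hex : ∃ m : ℕ, 0 < m ∧ m • y ∈ M := ⟨addOrderOf y, addOrderOf_pos y, by
      rw [addOrderOf_nsmul_eq_zero]
      exact M.zero_mem⟩
    obtain ⟨hN0, hN1⟩ := Nat.find_spec hex
    set N := Nat.find hex with hNdef
    have hN2 : N ≠ 1 := by
      intro h1
      rw [h1, one_smul] at hN1
      exact hyM hN1
    obtain ⟨q, hq, hqN⟩ := Nat.exists_prime_and_dvd hN2
    obtain ⟨r, hr⟩ := hqN
    have hr0 : 0 < r := by
      rcases Nat.eq_zero_or_pos r with h | h
      · rw [h, mul_zero] at hr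
        omega
      · exact h
    refine ⟨r • y, q, hq, H.nsmul_mem hyH r, ?_, ?_⟩
    · intro h1
      have h2 := Nat.find_min hex (m := r) (by
        rw [← hNdef, hr]
        have := hq.one_lt
        nlinarith)
      exact h2 ⟨hr0, h1⟩
    · rw [smul_smul, ← hr]
      exact hN1
  -- improve it
  obtain ⟨y2, hy2H, hy2M, hqy2⟩ : ∃ y2 : B, y2 ∈ H ∧ y2 ∉ M ∧ q • y2 ∈ K := by
    rw [hM, AddSubgroup.mem_sup] at hqy'
    obtain ⟨k, hk, z, hz, hkz⟩ := hqy'
    rw [AddSubgroup.mem_zmultiples_iff] at hz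
    obtain ⟨c, rfl⟩ := hz
    by_cases hqp : q = p
    · refine ⟨y', hy'H, hy'M, ?_⟩
      have hpe : p ∣ addOrderOf y' := by
        by_contra hcon
        apply hy'M
        have hcop : IsCoprime (addOrderOf y' : ℤ) (p : ℤ) := by
          rw [Nat.isCoprime_iff_coprime]
          exact ((Nat.Prime.coprime_iff_not_dvd hp).2 hcon).symm
        obtain ⟨u, v, huv⟩ := hcop
        have h2 : y' = u • ((addOrderOf y' : ℤ) • y') + v • ((p : ℤ) • y') := by
          rw [smul_smul, smul_smul, ← add_smul, huv, one_smul]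
        have h3 : (addOrderOf y' : ℤ) • y' = 0 := by
          rw [natCast_zsmul, addOrderOf_nsmul_eq_zero]
        rw [h2, h3, smul_zero, zero_add]
        refine M.zsmul_mem ?_ v
        rw [natCast_zsmul, ← hqp, ← hkz]
        exact M.add_mem (hKM hk) (M.zsmul_mem hxM c)
      obtain ⟨e, he⟩ := hpe
      have hpe' : ¬ p ∣ e := by
        rintro ⟨f, rfl⟩
        have h1 := hsq y'
        rw [he] at h1
        have h2 := h1 p ⟨f, by ring⟩
        exact hp.one_lt.ne' (Nat.isUnit_iff.1 h2)
      have h1 : (e : ℤ) • (c • x) ∈ K := by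
        have h2 : (e : ℤ) • (q • y') = 0 := by
          rw [natCast_zsmul, smul_smul, hqp, mul_comm, ← he, addOrderOf_nsmul_eq_zero]
        have h3 : (e : ℤ) • (c • x) = -((e : ℤ) • k) := by
          rw [eq_neg_iff_add_eq_zero, add_comm, ← smul_add, hkz, h2]
        rw [h3]
        exact K.neg_mem (K.zsmul_mem hk _)
      rw [smul_smul] at h1
      have h2 := zm_mem_of hp hx h1 hxK
      have h3 : (p : ℤ) ∣ c := by
        rcases (Nat.prime_iff_prime_int.1 hp).dvd_or_dvd h2 with h | h
        · exact absurd (by exact_mod_cast h) hpe'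
        · exact h
      obtain ⟨d, rfl⟩ := h3
      rw [← hkz, mul_comm, mul_smul, hpx, smul_zero, add_zero]
      exact hk
    · have hcop : IsCoprime (q : ℤ) (p : ℤ) := by
        rw [Nat.isCoprime_iff_coprime]
        exact (Nat.coprime_primes hq hp).2 hqp
      obtain ⟨u, v, huv⟩ := hcop
      refine ⟨y' - (c * u) • x, H.sub_mem hy'H (H.zsmul_mem hxH _), fun h => hy'M ?_, ?_⟩
      · have h1 : y' = (y' - (c * u) • x) + (c * u) • x := by abel
        rw [h1]
        exact M.add_mem h (M.zsmul_mem hxM _)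
      · have h1 : q • (y' - (c * u) • x) = k := by
          have h2 : q • ((c * u) • x) = c • x := by
            rw [← natCast_zsmul, smul_smul]
            have h3 : (q : ℤ) * (c * u) = c - c * v * p := by
              have h4 : u * (q : ℤ) = 1 - v * p := by linarith
              calc (q : ℤ) * (c * u) = c * (u * q) := by ring
                _ = c * (1 - v * p) := by rw [h4]
                _ = c - c * v * p := by ring
            rw [h3, sub_smul, mul_smul (c * v), hpx, smul_zero, sub_zero]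
          rw [smul_sub, h2, ← hkz]
          abel
        rw [h1]
        exact hk
  have hy2K : y2 ∉ K := fun h => hy2M (hKM h)
  have hK' : K < K ⊔ AddSubgroup.zmultiples y2 := by
    refine lt_of_le_of_ne le_sup_left fun h => hy2K ?_
    rw [h]
    exact (le_sup_right : AddSubgroup.zmultiples y2 ≤ _) (AddSubgroup.mem_zmultiples y2)
  have hxK' : x ∈ K ⊔ AddSubgroup.zmultiples y2 := by
    by_contra hcon
    have h1 := hmax (y := K ⊔ AddSubgroup.zmultiples y2)
      ⟨sup_le hKH (by rwa [AddSubgroup.zmultiples_le]), hcon⟩ hK'.le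
    exact absurd (lt_of_lt_of_le hK' h1) (lt_irrefl _)
  rw [AddSubgroup.mem_sup] at hxK'
  obtain ⟨k, hk, z, hz, hkz⟩ := hxK'
  rw [AddSubgroup.mem_zmultiples_iff] at hz
  obtain ⟨m, rfl⟩ := hz
  by_cases hqm : (q : ℤ) ∣ m
  · obtain ⟨r, rfl⟩ := hqm
    apply hxK
    rw [← hkz, mul_comm, mul_smul, natCast_zsmul]
    exact K.add_mem hk (K.zsmul_mem hqy2 r)
  · have hcop : IsCoprime (q : ℤ) m := (Nat.prime_iff_prime_int.1 hq).coprime_iff_not_dvd.2 hqm
    obtain ⟨u, v, huv⟩ := hcop
    apply hy2M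
    have h2 : y2 = u • ((q : ℤ) • y2) + v • (m • y2) := by
      rw [smul_smul, smul_smul, ← add_smul, huv, one_smul]
    rw [h2, natCast_zsmul]
    refine M.add_mem (M.zsmul_mem (hKM hqy2) u) (M.zsmul_mem ?_ v)
    have h3 : m • y2 = x - k := by
      rw [← hkz]
      abel
    rw [h3]
    exact M.sub_mem hxM (hKM hk)

end complement

section gen

variable {B : Type} [AddCommGroup B] [DecidableEq B] [Fintype B]

/-- the chosen elements -/
def SS (χ : Cl B → Bool) : Set B := {z | ∃ d, cls z = some d ∧ χ d = true}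

/-- the subgroup generated by the chosen elements -/
def gn (χ : Cl B → Bool) : AddSubgroup B := AddSubgroup.closure (SS χ)

/-- the signed number of configurations that generate `H` -/
noncomputable def Gm (H : AddSubgroup B) : ℤ := ∑ χ : Cl B → Bool, sgn χ * bit (gn χ = H)

theorem gn_toggle {x : B} {d : Cl B} (hd : cls x = some d) (χ : Cl B → Bool) (b : Bool) :
    gn (Function.update χ d b) ⊔ AddSubgroup.zmultiples x ≤ gn χ ⊔ AddSubgroup.zmultiples x := by
  refine sup_le ?_ le_sup_right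
  unfold gn
  rw [AddSubgroup.closure_le]
  rintro z ⟨d', hz, hd'⟩
  by_cases h : d' = d
  · subst h
    refine (le_sup_right : AddSubgroup.zmultiples x ≤ _) ?_
    rcases cls_inj hz hd with rfl | rfl
    · exact AddSubgroup.mem_zmultiples _
    · exact AddSubgroup.neg_mem _ (AddSubgroup.mem_zmultiples _)
  · rw [Function.update_of_ne h] at hd'
    exact (le_sup_left : AddSubgroup.closure (SS χ) ≤ _)
      (AddSubgroup.subset_closure ⟨d', hz, hd'⟩)

theorem gn_toggle_eq {x : B} {d : Cl B} (hd : cls x = some d) (χ : Cl B → Bool) (b : Bool) :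
    gn (Function.update χ d b) ⊔ AddSubgroup.zmultiples x = gn χ ⊔ AddSubgroup.zmultiples x := by
  refine le_antisymm (gn_toggle hd χ b) ?_
  have h := gn_toggle hd (Function.update χ d b) (χ d)
  rwa [Function.update_idem, Function.update_eq_self] at h

theorem Gm_step {x : B} (hx0 : x ≠ 0) {H : AddSubgroup B} (hxH : x ∈ H) :
    Gm H = - ∑ K : AddSubgroup B,
      bit (K ⊔ AddSubgroup.zmultiples x = H ∧ x ∉ K) * Gm K := by
  classical
  set d : Cl B := ⟨s(x, -x), x, hx0, rfl⟩ with hd
  have hcx : cls x = some d := cls_of_ne hx0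
  have h1 := toggle_zero (X := Cl B) (fun χ => bit (gn χ ⊔ AddSubgroup.zmultiples x = H)) d
    (fun χ => by simp only [gn_toggle_eq hcx])
  have h2 : ∀ χ : Cl B → Bool, sgn χ * bit (gn χ = H) =
      sgn χ * bit (gn χ ⊔ AddSubgroup.zmultiples x = H) -
        ∑ K : AddSubgroup B, bit (K ⊔ AddSubgroup.zmultiples x = H ∧ x ∉ K) *
          (sgn χ * bit (gn χ = K)) := by
    intro χ
    rw [Finset.sum_eq_single (gn χ)]
    · rw [bit_pos (rfl : gn χ = gn χ), mul_one]
      by_cases hH : gn χ ⊔ AddSubgroup.zmultiples x = H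
      · by_cases hxg : x ∈ gn χ
        · have h3 : gn χ = H := by
            rw [← hH, eq_comm, sup_eq_left, AddSubgroup.zmultiples_le]
            exact hxg
          rw [bit_pos h3, bit_pos hH, bit_neg (fun h => h.2 hxg)]
          ring
        · have h3 : gn χ ≠ H := fun h => hxg (by rw [h]; exact hxH)
          rw [bit_neg h3, bit_pos hH, bit_pos ⟨hH, hxg⟩]
          ring
      · have h3 : gn χ ≠ H := by
          intro h
          apply hH
          rw [h, sup_eq_left, AddSubgroup.zmultiples_le]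
          exact hxH
        rw [bit_neg h3, bit_neg hH, bit_neg (fun h => hH h.1)]
        ring
    · intro K _ hK
      rw [bit_neg (fun h : gn χ = K => hK h.symm), mul_zero, mul_zero]
    · intro h
      exact absurd (Finset.mem_univ _) h
  unfold Gm
  rw [Finset.sum_congr rfl fun χ _ => h2 χ, Finset.sum_sub_distrib, h1, zero_sub,
    Finset.sum_comm]
  congr 1
  refine Finset.sum_congr rfl fun K _ => ?_
  rw [Finset.mul_sum]

theorem Gm_bot : Gm (⊥ : AddSubgroup B) = 1 := by
  classical
  unfold Gm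
  rw [Finset.sum_eq_single (fun _ => false)]
  · have h1 : gn (fun _ : Cl B => false) = ⊥ := by
      unfold gn
      have h2 : SS (fun _ : Cl B => false) = ∅ := by
        ext z
        simp [SS]
      rw [h2, AddSubgroup.closure_empty]
    rw [bit_pos h1]
    simp [sgn]
  · intro χ _ hχ
    have h1 : gn χ ≠ ⊥ := by
      intro h
      apply hχ
      funext d
      obtain ⟨z, hz⟩ := cls_surj d
      by_contra hcon
      have h2 : z ∈ gn χ := AddSubgroup.subset_closure ⟨d, hz, by simpa using hcon⟩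
      rw [h, AddSubgroup.mem_bot] at h2
      rw [h2, cls_zero] at hz
      cases hz
    rw [bit_neg h1, mul_zero]
  · intro h
    exact absurd (Finset.mem_univ _) h

open ArithmeticFunction in
theorem Gm_pos (hsq : ∀ x : B, Squarefree (addOrderOf x)) : ∀ (N : ℕ) (H : AddSubgroup B),
    Nat.card H = N → 0 < (-1 : ℤ) ^ (cardFactors (Nat.card H)) * Gm H := by
  classical
  intro N
  induction N using Nat.strong_induction_on with
  | _ N ih =>
  intro H hHN
  by_cases hH : H = ⊥
  · subst hH
    rw [Gm_bot]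
    simp
  · obtain ⟨x, p, hp, hxH, hx⟩ : ∃ (x : B) (p : ℕ), p.Prime ∧ x ∈ H ∧ addOrderOf x = p := by
      have hcard : Nat.card H ≠ 1 := fun h => hH (AddSubgroup.card_eq_one.1 h)
      obtain ⟨p, hp, hpH⟩ := Nat.exists_prime_and_dvd hcard
      have : Fact p.Prime := ⟨hp⟩
      obtain ⟨x, hx⟩ := exists_prime_addOrderOf_dvd_card' (G := H) p hpH
      refine ⟨x.1, p, hp, x.2, ?_⟩
      rw [← hx]
      exact AddSubgroup.addOrderOf_coe x
    have hx0 : x ≠ 0 := by
      rintro rfl
      rw [addOrderOf_zero] at hx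
      exact hp.one_lt.ne hx
    have hterm : ∀ K : AddSubgroup B, K ⊔ AddSubgroup.zmultiples x = H ∧ x ∉ K →
        0 < (-1 : ℤ) ^ (cardFactors (Nat.card H)) * -(Gm K) := by
      rintro K ⟨h1, h2⟩
      have h3 := sup_card hp hx h1 h2
      have hK0 : 0 < Nat.card K := Nat.card_pos
      have h4 := ih (Nat.card K) (by
        rw [← hHN, h3]
        have := hp.one_lt
        nlinarith) K rfl
      rw [h3, cardFactors_mul hK0.ne' hp.ne_zero, cardFactors_apply_prime hp, pow_succ]
      linarith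
    rw [Gm_step hx0 hxH, ← Finset.sum_neg_distrib, Finset.mul_sum]
    obtain ⟨K0, hK0⟩ := exists_compl hsq hp hx hxH
    refine Finset.sum_pos' (fun K _ => ?_) ⟨K0, Finset.mem_univ _, ?_⟩
    · by_cases hK : K ⊔ AddSubgroup.zmultiples x = H ∧ x ∉ K
      · rw [bit_pos hK, one_mul]
        exact (hterm K hK).le
      · rw [bit_neg hK, zero_mul, neg_zero, mul_zero]
    · rw [bit_pos hK0, one_mul]
      exact hterm K0 hK0

/-- the signed number of generating configurations does not vanish -/
theorem Gm_top_ne (hsq : ∀ x : B, Squarefree (addOrderOf x)) : Gm (⊤ : AddSubgroup B) ≠ 0 := by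
  intro h
  have := Gm_pos hsq _ ⊤ rfl
  rw [h, mul_zero] at this
  exact lt_irrefl _ this

theorem sum_not_gen (hsq : ∀ x : B, Squarefree (addOrderOf x)) [Nonempty (Cl B)] :
    ∑ χ : Cl B → Bool, sgn χ * bit (gn χ ≠ ⊤) ≠ 0 := by
  classical
  have h1 : ∀ χ : Cl B → Bool, sgn χ * bit (gn χ ≠ ⊤) = sgn χ - sgn χ * bit (gn χ = ⊤) := by
    intro χ
    rw [bit_not]
    ring
  rw [Finset.sum_congr rfl fun χ _ => h1 χ, Finset.sum_sub_distrib, sum_sgn, zero_sub]
  exact neg_ne_zero.2 (Gm_top_ne hsq)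

end gen

end Pool.Agent.TH669.KS
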