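import Pool.Agent.TH669.KP.HamPath

set_option autoImplicit false
set_option linter.unusedSectionVars false

/-!
# Hamiltonian cycles in Cayley graphs of finite abelian groups
-/

namespace Pool.Agent.TH669.KS

open List
open Pool.Agent.TH669.KP (Stp)

section

variable {A : Type} [AddCommGroup A]

theorem Stp.symm {T : Set A} {x y : A} (h : Stp T x y) : Stp T y x := Or.symm h

theorem Stp.add {T : Set A} {x y : A} (h : Stp T x y) (a : A) : Stp T (x + a) (y + a) := by
  unfold Stp at h ⊢
  rw [add_sub_add_right_eq_sub, add_sub_add_right_eq_sub]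
  exact h

/-- a cyclic list for the steps in `T` -/
structure Cyc (T : Set A) (L : List A) (α β : A) : Prop where
  nd : L.Nodup
  ch : L.IsChain (Stp T)
  hd : L.head? = some α
  lt : L.getLast? = some β
  cl : Stp T β α

theorem Cyc.mono {T T' : Set A} (hT : T ⊆ T') {L : List A} {α β : A} (h : Cyc T L α β) :
    Cyc T' L α β := by
  have hsub : ∀ x y : A, Stp T x y → Stp T' x y := fun x y h => h.imp (@hT _) (@hT _)
  exact ⟨h.nd, h.ch.imp hsub, h.hd, h.lt, hsub _ _ h.cl⟩

theorem decomp {R : List A} {α β : A} (h1 : R.head? = some α) (h2 : R.getLast? = some β)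
    (h3 : 3 ≤ R.length) : ∃ (Q : List A) (γ : A), R = (α :: Q ++ [γ]) ++ [β] := by
  rcases R with _ | ⟨x, R1⟩
  · simp at h3
  have hx : x = α := by simpa using h1
  subst hx
  rcases List.eq_nil_or_concat R1 with rfl | ⟨Q, y, rfl⟩
  · simp at h3
  have hy : y = β := by
    rw [List.concat_eq_append, ← List.cons_append, List.getLast?_append] at h2
    simpa using h2
  subst hy
  rcases List.eq_nil_or_concat Q with rfl | ⟨Q', γ, rfl⟩
  · simp at h3
  refine ⟨Q', γ, ?_⟩
  simp

/-- one more generator -/
theorem cyc_step (T : Set A) (a : A) (H : AddSubgroup A) (L : List A) (α0 β0 : A)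
    (hL : Cyc T L α0 β0) (hlen : 3 ≤ L.length) (hmem : ∀ x, x ∈ L ↔ x ∈ H) (t : ℕ)
    (ht : ∀ i, 0 < i → i < t → i • a ∉ H) (j : ℕ) (hj : j < t) :
    ∃ (M R : List A) (α β : A), Cyc (insert a T) M α β ∧ Cyc (insert a T) R α β ∧
      3 ≤ M.length ∧ 3 ≤ R.length ∧ (∀ x, x ∈ M ↔ ∃ i, i ≤ j ∧ x - i • a ∈ H) ∧
      (∀ x, x ∈ R ↔ x - j • a ∈ H) := by
  induction j with
  | zero =>
    refine ⟨L, L, α0, β0, hL.mono (Set.subset_insert _ _), hL.mono (Set.subset_insert _ _), hlen,
      hlen, ?_, ?_⟩
    · intro x
      rw [hmem]
      constructor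
      · intro h
        exact ⟨0, le_rfl, by simpa using h⟩
      · rintro ⟨i, hi, h⟩
        have : i = 0 := by omega
        subst this
        simpa using h
    · intro x
      rw [hmem, zero_smul, sub_zero]
  | succ j ih =>
    obtain ⟨M, R, α, β, hM, hR, hM3, hR3, hMm, hRm⟩ := ih (by omega)
    obtain ⟨Q, γ, hRdec⟩ := decomp hR.hd hR.lt hR3
    set W : List A := α :: Q ++ [γ] with hW
    have hRch := hR.ch
    have hRnd := hR.nd
    rw [hRdec] at hRch hRnd
    have hWch : W.IsChain (Stp (insert a T)) := (List.isChain_append.1 hRch).1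
    have hγβ : Stp (insert a T) γ β := by
      refine (List.isChain_append.1 hRch).2.2 γ ?_ β (by simp)
      rw [hW, List.getLast?_append]
      simp
    set S : List A := W.reverse.map (fun z => z + a) with hS
    have hSch : S.IsChain (Stp (insert a T)) := by
      have h0 : W.reverse.IsChain (Stp (insert a T)) := by
        rw [List.isChain_reverse]
        exact hWch.imp fun x y h => Stp.symm h
      rw [hS]
      refine List.isChain_map_of_isChain _ ?_ h0
      intro x y h
      exact Stp.add h a
    have hShd : S.head? = some (γ + a) := by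
      rw [hS, List.head?_map, List.head?_reverse, hW, List.getLast?_append]
      simp
    have hSlt : S.getLast? = some (α + a) := by
      rw [hS, List.getLast?_map, List.getLast?_reverse, hW]
      simp
    have hWmem : ∀ x, x ∈ W ∨ x = β ↔ x - j • a ∈ H := by
      intro x
      rw [← hRm, hRdec]
      exact (List.mem_append.trans (or_congr_right List.mem_singleton)).symm
    have hSmem : ∀ x, x ∈ S ∨ x = β + a ↔ x - (j + 1) • a ∈ H := by
      intro x
      have h1 : x - (j + 1) • a = (x - a) - j • a := by
        rw [succ_nsmul]
        abel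
      rw [h1, ← hWmem, hS, List.mem_map]
      constructor
      · rintro (⟨z, hz, rfl⟩ | rfl)
        · left
          rw [add_sub_cancel_right]
          exact List.mem_reverse.1 hz
        · right
          rw [add_sub_cancel_right]
      · rintro (h | h)
        · exact Or.inl ⟨x - a, List.mem_reverse.2 h, by abel⟩
        · right
          rw [← h]
          abel
    have hdis : ∀ x ∈ M, ¬ x - (j + 1) • a ∈ H := by
      intro x hx h
      rw [hMm] at hx
      obtain ⟨i, hi, hx⟩ := hx
      refine ht (j + 1 - i) (by omega) (by omega) ?_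
      have h7 : (j + 1 - i) • a = (x - i • a) - (x - (j + 1) • a) := by
        have h8 : (j + 1) • a = (j + 1 - i) • a + i • a := by
          rw [← add_nsmul]
          congr 1
          omega
        rw [h8]
        abel
      rw [h7]
      exact H.sub_mem hx h
    have hWnd : W.Nodup := (List.nodup_append.1 hRnd).1
    have hβW : β ∉ W := fun h => (List.nodup_append.1 hRnd).2.2 β h β (by simp) rfl
    have hSnd : S.Nodup := (List.nodup_reverse.2 hWnd).map (add_left_injective a)
    have hβS : β + a ∉ S := by
      rw [hS, List.mem_map]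
      rintro ⟨z, hz, hz'⟩
      have : z = β := add_left_injective a hz'
      subst this
      exact hβW (List.mem_reverse.1 hz)
    have hSlen : 2 ≤ S.length := by
      rw [hS, List.length_map, List.length_reverse, hW]
      simp
    have hcl : Stp (insert a T) (α + a) (β + a) := Stp.symm (Stp.add hR.cl a)
    have hSne : S ≠ [] := by
      intro h
      rw [h] at hSlen
      simp at hSlen
    refine ⟨S ++ M ++ [β + a], S ++ [β + a], γ + a, β + a, ?_, ?_, ?_, ?_, ?_, ?_⟩
    · refine ⟨?_, ?_, ?_, ?_, Stp.symm (Stp.add hγβ a)⟩
      · rw [List.nodup_append, List.nodup_append]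
        refine ⟨⟨hSnd, hM.nd, ?_⟩, List.nodup_singleton _, ?_⟩
        · intro x hx y hy hxy
          subst hxy
          exact hdis x hy ((hSmem x).1 (Or.inl hx))
        · intro x hx y hy hxy
          rw [List.mem_singleton] at hy
          subst hxy hy
          rcases List.mem_append.1 hx with h | h
          · exact hβS h
          · exact hdis _ h ((hSmem _).1 (Or.inr rfl))
      · rw [List.isChain_append, List.isChain_append]
        refine ⟨⟨hSch, hM.ch, ?_⟩, List.isChain_singleton _, ?_⟩
        · intro x hx y hy
          rw [hSlt] at hx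
          rw [hM.hd] at hy
          have hx' : α + a = x := by simpa using hx
          have hy' : α = y := by simpa using hy
          subst hx' hy'
          right
          rw [add_sub_cancel_left]
          exact Set.mem_insert _ _
        · intro x hx y hy
          rw [List.getLast?_append, hM.lt] at hx
          have hx' : β = x := by simpa using hx
          have hy' : β + a = y := by simpa using hy
          subst hx' hy'
          left
          rw [add_sub_cancel_left]
          exact Set.mem_insert _ _
      · rw [List.head?_append, List.head?_append, hShd]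
        rfl
      · rw [List.getLast?_append]
        simp
    · refine ⟨?_, ?_, ?_, ?_, Stp.symm (Stp.add hγβ a)⟩
      · rw [List.nodup_append]
        refine ⟨hSnd, List.nodup_singleton _, ?_⟩
        intro x hx y hy hxy
        rw [List.mem_singleton] at hy
        subst hxy hy
        exact hβS hx
      · rw [List.isChain_append]
        refine ⟨hSch, List.isChain_singleton _, ?_⟩
        intro x hx y hy
        rw [hSlt] at hx
        have hx' : α + a = x := by simpa using hx
        have hy' : β + a = y := by simpa using hy
        subst hx' hy'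
        exact hcl
      · rw [List.head?_append, hShd]
        rfl
      · rw [List.getLast?_append]
        simp
    · rw [List.length_append, List.length_append]
      omega
    · rw [List.length_append, List.length_singleton]
      omega
    · intro x
      rw [List.mem_append, List.mem_append, List.mem_singleton, hMm]
      constructor
      · rintro ((h | ⟨i, hi, h⟩) | h)
        · exact ⟨j + 1, le_rfl, (hSmem x).1 (Or.inl h)⟩
        · exact ⟨i, by omega, h⟩
        · exact ⟨j + 1, le_rfl, (hSmem x).1 (Or.inr h)⟩
      · rintro ⟨i, hi, h⟩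
        rcases Nat.lt_or_ge j i with h' | h'
        · have : i = j + 1 := by omega
          subst this
          rcases (hSmem x).2 h with h | h
          · exact Or.inl (Or.inl h)
          · exact Or.inr h
        · exact Or.inl (Or.inr ⟨i, h', h⟩)
    · intro x
      rw [List.mem_append, List.mem_singleton]
      exact hSmem x

variable [Finite A]

/-- adding a finite set of generators -/
theorem cyc_extend (T0 : Set A) (L0 : List A) (α0 β0 : A) (hL0 : Cyc T0 L0 α0 β0)
    (hlen : 3 ≤ L0.length) (hmem : ∀ x, x ∈ L0 ↔ x ∈ AddSubgroup.closure T0) (T : Finset A) :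
    ∃ (L : List A) (α β : A), Cyc (T ∪ T0) L α β ∧ 3 ≤ L.length ∧
      ∀ x, x ∈ L ↔ x ∈ AddSubgroup.closure ((T : Set A) ∪ T0) := by
  classical
  induction T using Finset.induction_on with
  | empty =>
    refine ⟨L0, α0, β0, ?_, hlen, ?_⟩
    · simpa using hL0
    · simpa using hmem
  | insert a T ha ih =>
    obtain ⟨L, α, β, hL, h3, hm⟩ := ih
    set H := AddSubgroup.closure ((T : Set A) ∪ T0) with hH
    have hex : ∃ t : ℕ, 0 < t ∧ t • a ∈ H :=
      ⟨addOrderOf a, addOrderOf_pos a, by rw [addOrderOf_nsmul_eq_zero]; exact H.zero_mem⟩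
    set t := Nat.find hex with ht
    have ht1 := Nat.find_spec hex
    have ht2 : ∀ i, 0 < i → i < t → i • a ∉ H := by
      intro i hi hit hmem
      exact Nat.find_min hex hit ⟨hi, hmem⟩
    obtain ⟨M, _, α', β', m1, _, m2, _, m3, _⟩ := cyc_step ((T : Set A) ∪ T0) a H L α β hL h3 hm t
      ht2 (t - 1) (by omega)
    refine ⟨M, α', β', ?_, m2, ?_⟩
    · rw [Finset.coe_insert, Set.insert_union]
      exact m1
    intro x
    rw [m3, Finset.coe_insert, Set.insert_union]
    constructor
    · rintro ⟨i, _, h⟩
      have h5 : H ≤ AddSubgroup.closure (insert a ((T : Set A) ∪ T0)) :=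
        AddSubgroup.closure_mono (Set.subset_insert _ _)
      have h6 : x = (x - i • a) + i • a := by abel
      rw [h6]
      exact AddSubgroup.add_mem _ (h5 h)
        (AddSubgroup.nsmul_mem _ (AddSubgroup.subset_closure (Set.mem_insert _ _)) _)
    · intro hx
      have h5 : ∃ z : ℤ, x - z • a ∈ H := by
        rw [Set.insert_eq, AddSubgroup.closure_union, AddSubgroup.mem_sup] at hx
        obtain ⟨y, hy, z, hz, rfl⟩ := hx
        rw [AddSubgroup.mem_closure_singleton] at hy
        obtain ⟨n, rfl⟩ := hy
        refine ⟨n, ?_⟩
        rw [add_sub_cancel_left]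
        exact hz
      obtain ⟨z, hz⟩ := h5
      have htpos : (0 : ℤ) < t := by exact_mod_cast ht1.1
      have hm0 := Int.emod_nonneg z htpos.ne'
      have hm1 := Int.emod_lt_of_pos z htpos
      refine ⟨(z % t).toNat, by omega, ?_⟩
      have h6 : ((z % t).toNat : ℤ) = z % t := Int.toNat_of_nonneg hm0
      have h7 : (z % t).toNat • a = (z % t) • a := by
        rw [← natCast_zsmul, h6]
      have h8 : x - (z % t) • a = (x - z • a) + (z / t) • ((t : ℤ) • a) := by
        have h9 : z • a = (z % t) • a + (z / t) • ((t : ℤ) • a) := by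
          rw [smul_smul, ← add_smul]
          congr 1
          have := Int.emod_add_mul_ediv z t
          linarith
        rw [h9]
        abel
      rw [h7, h8]
      refine H.add_mem hz (H.zsmul_mem ?_ _)
      rw [natCast_zsmul]
      exact ht1.2

/-- the first generator has order at least three -/
theorem cyc_base (a : A) (h : 3 ≤ addOrderOf a) :
    ∃ (L : List A) (α β : A), Cyc {a} L α β ∧ 3 ≤ L.length ∧
      ∀ x, x ∈ L ↔ x ∈ AddSubgroup.closure ({a} : Set A) := by
  classical
  set m := addOrderOf a with hm
  obtain ⟨r, hr⟩ : ∃ r, m = r + 1 := ⟨m - 1, by omega⟩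
  refine ⟨(List.range m).map (fun i => i • a), 0, r • a, ⟨?_, ?_, ?_, ?_, ?_⟩, ?_, ?_⟩
  · refine List.Nodup.map_on ?_ List.nodup_range
    intro i hi j hj hij
    rw [List.mem_range] at hi hj
    exact nsmul_injOn_Iio_addOrderOf hi hj hij
  · rw [List.isChain_map]
    have h1 : ∀ k, (List.range k).IsChain (fun i j => Stp ({a} : Set A) (i • a) (j • a)) := by
      intro k
      induction k with
      | zero => simp
      | succ k ih =>
        rw [List.range_succ, List.isChain_append]
        refine ⟨ih, List.isChain_singleton _, ?_⟩
        intro x hx y hy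
        have hy' : k = y := by simpa using hy
        subst hy'
        rcases k with _ | k
        · simp at hx
        · rw [List.range_succ, List.getLast?_append] at hx
          have hx' : k = x := by simpa using hx
          subst hx'
          left
          rw [succ_nsmul, add_sub_cancel_left]
          rfl
    exact h1 m
  · rw [hr, List.range_succ_eq_map]
    simp
  · rw [hr, List.range_succ]
    simp
  · left
    have h1 : (r + 1) • a = 0 := by
      rw [← hr, hm, addOrderOf_nsmul_eq_zero]
    rw [succ_nsmul] at h1
    rw [zero_sub, Set.mem_singleton_iff, neg_eq_iff_add_eq_zero]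
    exact h1
  · simpa using h
  · intro x
    rw [List.mem_map, AddSubgroup.mem_closure_singleton]
    constructor
    · rintro ⟨i, _, rfl⟩
      exact ⟨i, by rw [natCast_zsmul]⟩
    · rintro ⟨z, rfl⟩
      have hmpos : (0 : ℤ) < m := by exact_mod_cast (by omega : 0 < m)
      have hm0 := Int.emod_nonneg z hmpos.ne'
      have hm1 := Int.emod_lt_of_pos z hmpos
      refine ⟨(z % m).toNat, List.mem_range.2 (by omega), ?_⟩
      have h6 : ((z % m).toNat : ℤ) = z % m := Int.toNat_of_nonneg hm0
      rw [← natCast_zsmul, h6, hm]
      exact mod_addOrderOf_zsmul a z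

/-- two involutions -/
theorem cyc_base2 (a c : A) (ha : a + a = 0) (hc : c + c = 0) (ha0 : a ≠ 0) (hc0 : c ≠ 0)
    (hac : a ≠ c) : ∃ (L : List A) (α β : A), Cyc {a, c} L α β ∧ 3 ≤ L.length ∧
      ∀ x, x ∈ L ↔ x ∈ AddSubgroup.closure ({a, c} : Set A) := by
  have hac' : a + c ≠ 0 := by
    intro h
    apply hac
    have h1 : a = -c := eq_neg_of_add_eq_zero_left h
    rw [h1]
    exact neg_eq_of_add_eq_zero_left hc
  have hna : -a = a := neg_eq_of_add_eq_zero_left ha
  have hnc : -c = c := neg_eq_of_add_eq_zero_left hc
  refine ⟨[0, a, a + c, c], 0, c, ⟨?_, ?_, rfl, rfl, ?_⟩, by simp, ?_⟩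
  · simp [ha0, hc0, hac, ha0.symm, hc0.symm, hac'.symm]
  · simp only [List.isChain_cons_cons, List.isChain_singleton, and_true]
    refine ⟨Or.inl (by simp), Or.inl (by simp), Or.inr (by simp)⟩
  · right
    simp
  · intro x
    simp only [List.mem_cons, List.not_mem_nil, or_false]
    constructor
    · have h1 : a ∈ AddSubgroup.closure ({a, c} : Set A) := AddSubgroup.subset_closure (by simp)
      have h2 : c ∈ AddSubgroup.closure ({a, c} : Set A) := AddSubgroup.subset_closure (by simp)
      rintro (rfl | rfl | rfl | rfl)
      · exact AddSubgroup.zero_mem _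
      · exact h1
      · exact AddSubgroup.add_mem _ h1 h2
      · exact h2
    · intro hx
      induction hx using AddSubgroup.closure_induction with
      | mem x hx =>
        rcases hx with rfl | hx
        · simp
        · rw [Set.mem_singleton_iff] at hx
          simp [hx]
      | zero => simp
      | add x y _ _ hx hy =>
        have e1 : a + (a + c) = c := by rw [← add_assoc, ha, zero_add]
        have e2 : a + c + a = c := by rw [add_comm a c, add_assoc, ha, add_zero]
        have e3 : a + c + (a + c) = 0 := by
          rw [add_add_add_comm, ha, hc, add_zero]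
        have e4 : a + c + c = a := by rw [add_assoc, hc, add_zero]
        have e5 : c + a = a + c := add_comm _ _
        have e6 : c + (a + c) = a := by rw [add_left_comm, hc, add_zero]
        rcases hx with rfl | rfl | rfl | rfl <;> rcases hy with rfl | rfl | rfl | rfl <;>
          simp [ha, hc, e1, e2, e3, e4, e5, e6]
      | neg x _ hx =>
        rcases hx with rfl | rfl | rfl | rfl
        · simp
        · simp [hna]
        · right; right; left
          rw [neg_add, hna, hnc]
        · simp [hnc]

/-- **Hamiltonian cycles.** -/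
theorem ham_cycle (T : Set A) (hT : AddSubgroup.closure T = ⊤) (hA : 3 ≤ Nat.card A) :
    ∃ (L : List A) (α β : A), Cyc T L α β ∧ L.length = Nat.card A := by
  classical
  have hfin : T.Finite := Set.toFinite _
  have hmain : ∀ (T0 : Set A), T0 ⊆ T → (∃ (L : List A) (α β : A), Cyc T0 L α β ∧ 3 ≤ L.length ∧
      ∀ x, x ∈ L ↔ x ∈ AddSubgroup.closure T0) →
      ∃ (L : List A) (α β : A), Cyc T L α β ∧ L.length = Nat.card A := by
    rintro T0 hT0 ⟨L0, α0, β0, h1, h2, h3⟩
    obtain ⟨L, α, β, h4, _, h6⟩ := cyc_extend T0 L0 α0 β0 h1 h2 h3 hfin.toFinset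
    have h7 : (hfin.toFinset : Set A) ∪ T0 = T := by
      rw [hfin.coe_toFinset]
      exact Set.union_eq_left.2 hT0
    rw [h7] at h4 h6
    refine ⟨L, α, β, h4, ?_⟩
    have h8 : ∀ x : A, x ∈ L := by
      intro x
      rw [h6, hT]
      trivial
    have : Fintype A := Fintype.ofFinite A
    rw [Nat.card_eq_fintype_card, ← List.toFinset_card_of_nodup h4.nd, ← Finset.card_univ]
    congr 1
    ext x
    simp [h8 x]
  by_cases hex : ∃ a ∈ T, 3 ≤ addOrderOf a
  · obtain ⟨a, ha, ha3⟩ := hex
    exact hmain {a} (Set.singleton_subset_iff.2 ha) (cyc_base a ha3)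
  · push Not at hex
    have hinv : ∀ a ∈ T, a + a = 0 := by
      intro a ha
      have h1 := hex a ha
      have h2 := addOrderOf_pos a
      have h3 : addOrderOf a ∣ 2 := by
        interval_cases h : addOrderOf a
        · exact one_dvd _
        · exact dvd_refl _
      rw [addOrderOf_dvd_iff_nsmul_eq_zero, two_nsmul] at h3
      exact h3
    obtain ⟨a, ha, ha0⟩ : ∃ a ∈ T, a ≠ 0 := by
      by_contra hcon
      push Not at hcon
      have h1 : AddSubgroup.closure T ≤ ⊥ := by
        rw [AddSubgroup.closure_le]
        intro x hx
        exact hcon x hx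
      rw [hT] at h1
      have h2 : Nat.card (⊤ : AddSubgroup A) = Nat.card (⊥ : AddSubgroup A) := by
        rw [le_bot_iff.1 h1]
      rw [AddSubgroup.card_top] at h2
      simp at h2
      omega
    obtain ⟨c, hc, hc0, hac⟩ : ∃ c ∈ T, c ≠ 0 ∧ a ≠ c := by
      by_contra hcon
      push Not at hcon
      have h1 : AddSubgroup.closure T ≤ AddSubgroup.zmultiples a := by
        rw [AddSubgroup.closure_le]
        intro x hx
        by_cases hx0 : x = 0
        · rw [hx0]
          exact AddSubgroup.zero_mem _
        · rw [← hcon x hx hx0]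
          exact AddSubgroup.mem_zmultiples a
      rw [hT, top_le_iff] at h1
      have h2 : Nat.card (⊤ : AddSubgroup A) = Nat.card (AddSubgroup.zmultiples a) := by
        rw [h1]
      rw [AddSubgroup.card_top, Nat.card_zmultiples] at h2
      have := hex a ha
      omega
    exact hmain {a, c} (by
      intro x hx
      rcases hx with rfl | hx
      · exact ha
      · rw [Set.mem_singleton_iff] at hx
        rw [hx]
        exact hc) (cyc_base2 a c (hinv a ha) (hinv c hc) ha0 hc0 hac)

end

end Pool.Agent.TH669.KS
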