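import Pool.Agent.TH669.KC.Model

set_option autoImplicit false
set_option linter.unusedSectionVars false

/-!
# The group and its orbits, without fixed points

Blocks `A i`, finite abelian groups, with translations.
-/

namespace Pool.Agent.TH669.KS

open Finset
open Pool.Agent.H119R2.Kp (GP PV)
open Pool.Agent.TH669.KP (sgn bit GR GR_adj rel_orb)
open Pool.Agent.TH669.KC (Pr Cl cls cls_zero cls_of_ne cls_ne_none cls_neg cls_inj cls_surj)

section

variable {I : Type} (A : I → Type) [∀ i, AddCommGroup (A i)] [∀ i, DecidableEq (A i)]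
  [DecidableEq I]

/-- the vertices -/
abbrev Vs : Type := Σ i, A i

/-- the orbits -/
abbrev Js : Type := Pr I ⊕ (Σ i, Cl (A i))

variable {A}

/-- the orbit of a pair -/
def ob (u v : Vs A) : Option (Js A) :=
  if h : u.1 = v.1 then (cls (u.2 - (h ▸ v.2))).map fun d => .inr ⟨u.1, d⟩
  else some (.inl ⟨s(u.1, v.1), by rw [Sym2.mk_isDiag_iff]; exact h⟩)

theorem ob_same (i : I) (x y : A i) : ob (⟨i, x⟩ : Vs A) ⟨i, y⟩ =
    (cls (x - y)).map fun d => .inr ⟨i, d⟩ := by
  unfold ob
  simp

theorem ob_diff {i j : I} (h : i ≠ j) (x : A i) (y : A j) :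
    ob (⟨i, x⟩ : Vs A) ⟨j, y⟩ = some (.inl ⟨s(i, j), by rw [Sym2.mk_isDiag_iff]; exact h⟩) := by
  simp only [ob]
  rw [dif_neg h]

theorem ob_symm (u v : Vs A) : ob u v = ob v u := by
  rcases u with ⟨i, x⟩
  rcases v with ⟨j, y⟩
  by_cases h : i = j
  · subst h
    rw [ob_same, ob_same, ← cls_neg, neg_sub]
  · rw [ob_diff h, ob_diff (Ne.symm h)]
    simp [Sym2.eq_swap]

theorem ob_self (u : Vs A) : ob u u = none := by
  rcases u with ⟨i, x⟩
  rw [ob_same, sub_self, cls_zero]
  rfl

theorem ob_ne_none (u v : Vs A) (huv : u ≠ v) : ob u v ≠ none := by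
  rcases u with ⟨i, x⟩
  rcases v with ⟨j, y⟩
  by_cases h : i = j
  · subst h
    rw [ob_same]
    have h1 : x - y ≠ 0 := sub_ne_zero.2 fun h => huv (by rw [h])
    rw [Ne, Option.map_eq_none_iff]
    exact cls_ne_none h1
  · rw [ob_diff h]
    simp

theorem ob_exists (j : Js A) : ∃ u v : Vs A, ob u v = some j := by
  rcases j with ⟨e, he⟩ | ⟨i, d⟩
  · induction e using Sym2.ind with
    | _ i j =>
    have hij : i ≠ j := by rwa [Sym2.mk_isDiag_iff] at he
    exact ⟨⟨i, 0⟩, ⟨j, 0⟩, ob_diff hij 0 0⟩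
  · obtain ⟨z, hz⟩ := cls_surj d
    refine ⟨⟨i, z⟩, ⟨i, 0⟩, ?_⟩
    rw [ob_same, sub_zero, hz]
    rfl

/-! ### translations -/

/-- translation -/
def ts (t : ∀ i, A i) : Equiv.Perm (Vs A) :=
  Equiv.sigmaCongrRight fun i => Equiv.addRight (t i)

theorem ts_mk (t : ∀ i, A i) (i : I) (x : A i) : ts t (⟨i, x⟩ : Vs A) = ⟨i, x + t i⟩ := rfl

theorem ts_add (t t' : ∀ i, A i) : ts (t + t') = ts t * ts t' := by
  ext1 u
  rw [Equiv.Perm.mul_apply]
  rcases u with ⟨i, x⟩
  rw [ts_mk, ts_mk, ts_mk, Pi.add_apply, add_comm (t i), add_assoc]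

theorem ts_zero : ts (0 : ∀ i, A i) = 1 := by
  ext1 u
  rcases u with ⟨i, x⟩
  rw [ts_mk, Pi.zero_apply, add_zero]
  rfl

theorem ts_nsmul (t : ∀ i, A i) (n : ℕ) : ts (n • t) = ts t ^ n := by
  induction n with
  | zero => rw [zero_smul, ts_zero, pow_zero]
  | succ n ih => rw [succ_nsmul, ts_add, ih, pow_succ]

theorem ts_comm (t t' : ∀ i, A i) : ts t * ts t' = ts t' * ts t := by
  rw [← ts_add, ← ts_add, add_comm]

theorem ob_ts (t : ∀ i, A i) (u v : Vs A) : ob (ts t u) (ts t v) = ob u v := by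
  rcases u with ⟨i, x⟩
  rcases v with ⟨j, y⟩
  rw [ts_mk, ts_mk]
  by_cases h : i = j
  · subst h
    rw [ob_same, ob_same, add_sub_add_right_eq_sub]
  · rw [ob_diff h, ob_diff h]

/-- transitivity on the orbits of the group of all translations -/
theorem ob_trans (j : Js A) (u v u' v' : Vs A) (h : ob u v = some j) (h' : ob u' v' = some j) :
    ∃ t : ∀ i, A i, (ts t u = u' ∧ ts t v = v') ∨ (ts t u = v' ∧ ts t v = u') := by
  classical
  have one : ∀ (i : I) (x x' : A i), ∃ t : ∀ i, A i, ts t (⟨i, x⟩ : Vs A) = ⟨i, x'⟩ := by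
    intro i x x'
    refine ⟨Function.update 0 i (x' - x), ?_⟩
    rw [ts_mk, Function.update_self, add_sub_cancel]
  have two : ∀ (i j : I) (_ : i ≠ j) (x x' : A i) (y y' : A j), ∃ t : ∀ i, A i,
      ts t (⟨i, x⟩ : Vs A) = ⟨i, x'⟩ ∧ ts t (⟨j, y⟩ : Vs A) = ⟨j, y'⟩ := by
    intro i j hij x x' y y'
    refine ⟨Function.update (Function.update 0 j (y' - y)) i (x' - x), ?_, ?_⟩
    · rw [ts_mk, Function.update_self, add_sub_cancel]
    · rw [ts_mk, Function.update_of_ne (Ne.symm hij), Function.update_self, add_sub_cancel]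
  rcases u with ⟨i, x⟩
  rcases v with ⟨k, y⟩
  rcases u' with ⟨i', x'⟩
  rcases v' with ⟨k', y'⟩
  by_cases hik : i = k
  · subst hik
    rw [ob_same, Option.map_eq_some_iff] at h
    obtain ⟨d, hd, rfl⟩ := h
    by_cases hik' : i' = k'
    · subst hik'
      rw [ob_same, Option.map_eq_some_iff] at h'
      obtain ⟨d', hd', he⟩ := h'
      simp only [Sum.inr.injEq, Sigma.mk.injEq] at he
      obtain ⟨rfl, he⟩ := he
      have he' : d' = d := eq_of_heq he
      subst he'
      rcases cls_inj hd hd' with h1 | h1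
      · obtain ⟨t, ht⟩ := one i' x x'
        refine ⟨t, Or.inl ⟨ht, ?_⟩⟩
        rw [ts_mk] at ht ⊢
        simp only [Sigma.mk.injEq, heq_eq_eq, true_and] at ht ⊢
        rw [← ht] at h1
        have : y' = y + t i' := by
          have h2 : x + t i' - y' = x - y := h1.symm
          have h3 : y' = x + t i' - (x + t i' - y') := by abel
          rw [h3, h2]
          abel
        exact this.symm
      · obtain ⟨t, ht⟩ := one i' x y'
        refine ⟨t, Or.inr ⟨ht, ?_⟩⟩
        rw [ts_mk] at ht ⊢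
        simp only [Sigma.mk.injEq, heq_eq_eq, true_and] at ht ⊢
        rw [← ht] at h1
        have : x' = y + t i' := by
          have h2 : x' - (x + t i') = y - x := by
            rw [← neg_sub x y, h1, neg_neg]
          have h3 : x' = x' - (x + t i') + (x + t i') := by abel
          rw [h3, h2]
          abel
        exact this.symm
    · exfalso
      rw [ob_diff hik'] at h'
      simp at h'
  · rw [ob_diff hik] at h
    by_cases hik' : i' = k'
    · exfalso
      subst hik'
      rw [ob_same, ← h] at h'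
      simp [Option.map_eq_some_iff] at h'
    · rw [ob_diff hik', ← h] at h'
      simp only [Option.some.injEq, Sum.inl.injEq, Subtype.mk.injEq, Sym2.eq_iff] at h'
      rcases h' with ⟨rfl, rfl⟩ | ⟨rfl, rfl⟩
      · obtain ⟨t, h1, h2⟩ := two i' k' hik x x' y y'
        exact ⟨t, Or.inl ⟨h1, h2⟩⟩
      · obtain ⟨t, h1, h2⟩ := two k' i' hik x y' y x'
        exact ⟨t, Or.inr ⟨h1, h2⟩⟩

variable [Fintype I] [∀ i, Fintype (A i)]

/-- the graph of a configuration -/
abbrev Gs (χ : Js A → Bool) : SimpleGraph (Vs A) := GR ob ob_symm ob_self χ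

/-- the relation: the translations are generated by elements `a i` of order `p` and one more
element -/
theorem relation {n q : ℕ} {Q : SimpleGraph (Fin n) → Prop} (hQ : GP n q Q)
    (hV : Fintype.card (Vs A) = n) (p : ℕ) [Fact p.Prime] {ι : Type} [Fintype ι]
    (a : ι → ∀ i, A i) (c : ∀ i, A i) (hap : ∀ i, p • a i = 0)
    (hgen : ∀ t : ∀ i, A i, t ∈ AddSubgroup.closure (insert c (Set.range a)))
    (hq : q < n.choose 2) :
    ∑ χ : Js A → Bool, sgn χ * bit (PV Q (Vs A) (Gs χ)) = 0 := by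
  have hgen' : ∀ t : ∀ i, A i, ts t ∈ Subgroup.closure
      (insert (ts c) (Set.range fun i => ts (a i))) := by
    intro t
    have h := hgen t
    induction h using AddSubgroup.closure_induction with
    | mem x hx =>
      refine Subgroup.subset_closure ?_
      rcases hx with rfl | ⟨i, rfl⟩
      · exact Set.mem_insert _ _
      · exact Set.mem_insert_of_mem _ ⟨i, rfl⟩
    | zero =>
      rw [ts_zero]
      exact Subgroup.one_mem _
    | add x y _ _ hx hy =>
      rw [ts_add]
      exact Subgroup.mul_mem _ hx hy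
    | neg x _ hx =>
      have h1 : ts (-x) = (ts x)⁻¹ := by
        rw [eq_inv_iff_mul_eq_one, ← ts_add, neg_add_cancel, ts_zero]
      rw [h1]
      exact Subgroup.inv_mem _ hx
  refine rel_orb hQ hV p (fun i => ts (a i)) (ts c) (fun i j => ts_comm _ _) ?_ ?_ ob
    ob_symm ob_self ob_ne_none (fun i => ob_ts _) (ob_ts _) ob_exists ?_ hq
  · intro i
    rw [← ts_nsmul, hap, ts_zero]
  · intro i
    rw [mul_assoc, ts_comm, ← mul_assoc, inv_mul_cancel, one_mul]
    exact Subgroup.subset_closure (Set.mem_range_self i)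
  · intro j u v u' v' h h'
    obtain ⟨t, ht⟩ := ob_trans j u v u' v' h h'
    exact ⟨ts t, hgen' t, ht⟩

end

end Pool.Agent.TH669.KS
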