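import Pool.Agent.TH669.KP.NT

set_option autoImplicit false

/-!
# Coprime squarefree numbers `b + b' = N` with `b` in a window of length `N ^ (4 / 5)`
-/

namespace Pool.Agent.TH669.KS.NT

open Finset
open Pool.Agent.TH669.KP.NT

/-- the final inequality -/
theorem final_ineq2 (N H K W C s : ℕ) (hN : 0 < N) (h1 : H ≤ 6 * W ^ 2 * s) (hs : s * s ≤ N)
    (hW : W ^ 8 ≤ C * N) (hK : N ^ 4 ≤ K * H ^ 5) : N ≤ K ^ 4 * (1296 * C) ^ 5 := by
  have h2 : H ^ 4 ≤ 1296 * W ^ 8 * (s * s) ^ 2 := by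
    calc H ^ 4 ≤ (6 * W ^ 2 * s) ^ 4 := Nat.pow_le_pow_left h1 4
      _ = 1296 * W ^ 8 * (s * s) ^ 2 := by ring
  have h3 : H ^ 4 ≤ 1296 * (C * N) * N ^ 2 := h2.trans
    (Nat.mul_le_mul (Nat.mul_le_mul_left _ hW) (Nat.pow_le_pow_left hs 2))
  have h4 : N ^ 15 * N ≤ N ^ 15 * (K ^ 4 * (1296 * C) ^ 5) := by
    calc N ^ 15 * N = (N ^ 4) ^ 4 := by ring
      _ ≤ (K * H ^ 5) ^ 4 := Nat.pow_le_pow_left hK 4
      _ = K ^ 4 * (H ^ 4) ^ 5 := by ring
      _ ≤ K ^ 4 * (1296 * (C * N) * N ^ 2) ^ 5 :=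
          Nat.mul_le_mul_left _ (Nat.pow_le_pow_left h3 5)
      _ = N ^ 15 * (K ^ 4 * (1296 * C) ^ 5) := by ring
  exact Nat.le_of_mul_le_mul_left h4 (by positivity)

theorem nt2 (K : ℕ) : ∃ N0, ∀ N, N0 ≤ N → ∀ a0 H : ℕ, N ^ 4 ≤ K * H ^ 5 → 0 < a0 → a0 + 12 * H ≤ N →
    ¬ 4 ∣ a0 → ¬ 4 ∣ N - a0 → ¬ 3 ∣ a0 → ¬ 3 ∣ N - a0 → ¬ (2 ∣ a0 ∧ 2 ∣ N - a0) →
    ∃ t, t < H ∧ Squarefree (a0 + 12 * t) ∧ Squarefree (N - (a0 + 12 * t)) ∧
      Nat.Coprime (a0 + 12 * t) (N - (a0 + 12 * t)) := by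
  classical
  obtain ⟨C, hC⟩ : ∃ C : ℕ, ∀ (N : ℕ) (_ : 0 < N) (P : Finset ℕ) (_ : ∀ l ∈ P, l.Prime)
    (_ : ∀ l ∈ P, l ∣ N), ((2 : ℕ) ^ P.card) ^ 8 ≤ C * N := ⟨_, two_pow_card⟩
  refine ⟨K ^ 4 * (1296 * C) ^ 5 + 1, fun N hN0 a0 H hKH ha0 haH h4 h4' h3 h3' h2 => ?_⟩
  have hN : 0 < N := by omega
  by_contra hno
  push Not at hno
  set P := N.primeFactors.filter (5 ≤ ·) with hPdef
  have hP : ∀ l ∈ P, l.Prime := fun l hl => Nat.prime_of_mem_primeFactors (Finset.mem_filter.1 hl).1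
  have hPN : ∀ l ∈ P, l ∣ N := fun l hl => Nat.dvd_of_mem_primeFactors (Finset.mem_filter.1 hl).1
  have hPm : ∀ l, l.Prime → 5 ≤ l → l ∣ N → l ∈ P := fun l h1 h2 h3 =>
    Finset.mem_filter.2 ⟨Nat.mem_primeFactors.2 ⟨h1, h3, hN.ne'⟩, h2⟩
  set s := Nat.sqrt N with hs
  have hss : s * s ≤ N := Nat.sqrt_le N
  have hs1 : 1 ≤ s := Nat.sqrt_pos.2 hN
  set Q := (Finset.Icc 1 s).filter fun l => l.Prime ∧ 5 ≤ l ∧ ¬ l ∣ N with hQdef
  have hcop : ∀ l : ℕ, l.Prime → 5 ≤ l → Nat.Coprime l 12 := by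
    intro l hl hl5
    rw [Nat.Prime.coprime_iff_not_dvd hl]
    intro h
    have h12 : (12 : ℕ) = 2 * 2 * 3 := by norm_num
    rw [h12] at h
    rcases (hl.dvd_mul).1 h with h | h
    · rcases (hl.dvd_mul).1 h with h | h <;> exact absurd (Nat.le_of_dvd (by norm_num) h) (by omega)
    · exact absurd (Nat.le_of_dvd (by norm_num) h) (by omega)
  have hr' : ∀ l : ℕ, ∃ r, l.Prime → 5 ≤ l → ∀ t, l ∣ a0 + 12 * t ↔ t ≡ r [MOD l] := by
    intro l
    by_cases hl : l.Prime ∧ 5 ≤ l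
    · obtain ⟨r, hr⟩ := residue l a0 (hcop l hl.1 hl.2) hl.1.pos
      exact ⟨r, fun _ _ => hr⟩
    · exact ⟨0, fun h h' => absurd ⟨h, h'⟩ hl⟩
  choose r hr using hr'
  have hc1' : ∀ l : ℕ, ∃ r, l.Prime → 5 ≤ l → ∀ t, l ^ 2 ∣ a0 + 12 * t ↔ t ≡ r [MOD l ^ 2] := by
    intro l
    by_cases hl : l.Prime ∧ 5 ≤ l
    · obtain ⟨r, hr⟩ := residue (l ^ 2) a0 ((hcop l hl.1 hl.2).pow_left 2) (pow_pos hl.1.pos 2)
      exact ⟨r, fun _ _ => hr⟩
    · exact ⟨0, fun h h' => absurd ⟨h, h'⟩ hl⟩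
  choose c1 hc1 using hc1'
  have hc2' : ∀ l : ℕ, ∃ r, l.Prime → 5 ≤ l → ∀ t, l ^ 2 ∣ (a0 + (l ^ 2 - 1) * N) + 12 * t ↔
      t ≡ r [MOD l ^ 2] := by
    intro l
    by_cases hl : l.Prime ∧ 5 ≤ l
    · obtain ⟨r, hr⟩ := residue (l ^ 2) (a0 + (l ^ 2 - 1) * N) ((hcop l hl.1 hl.2).pow_left 2)
        (pow_pos hl.1.pos 2)
      exact ⟨r, fun _ _ => hr⟩
    · exact ⟨0, fun h h' => absurd ⟨h, h'⟩ hl⟩
  choose c2 hc2 using hc2'
  have hsub : S H r P 1 0 ⊆ Q.biUnion fun l => S H r P (l ^ 2) (c1 l) ∪ S H r P (l ^ 2) (c2 l) := by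
    intro t ht
    unfold S at ht
    rw [Finset.mem_filter, Finset.mem_range] at ht
    obtain ⟨htH, -, htP⟩ := ht
    set b := a0 + 12 * t with hb
    have hbN : b < N := by omega
    have hPb : ∀ l, l.Prime → 5 ≤ l → l ∣ N → ¬ l ∣ b := fun l h1 h2 h3 h =>
      htP l (hPm l h1 h2 h3) ((hr l h1 h2 t).1 h)
    have e4 : ¬ 4 ∣ b := by omega
    have e3 : ¬ 3 ∣ b := by omega
    have e4' : ¬ 4 ∣ N - b := by omega
    have e3' : ¬ 3 ∣ N - b := by omega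
    have e2 : ¬ (2 ∣ b ∧ 2 ∣ N - b) := by omega
    have hp5 : ∀ l : ℕ, l.Prime → l ≠ 2 → l ≠ 3 → 5 ≤ l := by
      intro l hl hl2 hl3
      have h1 := hl.two_le
      have h4 : l ≠ 4 := by rintro rfl; revert hl; decide
      omega
    have hcp : Nat.Coprime b (N - b) := by
      by_contra hnc
      obtain ⟨l, hl, hl1, hl2⟩ := Nat.Prime.not_coprime_iff_dvd.1 hnc
      have hlN : l ∣ N := by
        have := dvd_add hl1 hl2
        rwa [Nat.add_sub_cancel' hbN.le] at this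
      by_cases hl2' : l = 2
      · subst hl2'
        exact e2 ⟨hl1, hl2⟩
      by_cases hl3' : l = 3
      · subst hl3'
        exact e3 hl1
      exact hPb l hl (hp5 l hl hl2' hl3') hlN hl1
    have hmem : ∃ l, l ∈ Q ∧ (l ^ 2 ∣ b ∨ l ^ 2 ∣ N - b) := by
      have hno' := hno t htH
      by_cases hsq : Squarefree b
      · have hnsq : ¬ Squarefree (N - b) := fun h => hno' hsq h hcp
        rw [Nat.squarefree_iff_prime_squarefree] at hnsq
        push Not at hnsq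
        obtain ⟨l, hl, hll⟩ := hnsq
        have hld : l ∣ N - b := (dvd_mul_right l l).trans hll
        have hl2' : l ≠ 2 := by
          rintro rfl
          exact e4' hll
        have hl3' : l ≠ 3 := by
          rintro rfl
          exact e3' hld
        have hl5 := hp5 l hl hl2' hl3'
        refine ⟨l, ?_, Or.inr (by rw [pow_two]; exact hll)⟩
        rw [hQdef, Finset.mem_filter, Finset.mem_Icc]
        refine ⟨⟨by omega, ?_⟩, hl, hl5, ?_⟩
        · rw [hs, Nat.le_sqrt]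
          exact (Nat.le_of_dvd (by omega) hll).trans (Nat.sub_le _ _)
        · intro hlN
          apply hPb l hl hl5 hlN
          have := Nat.dvd_sub hlN hld
          rwa [Nat.sub_sub_self hbN.le] at this
      · rw [Nat.squarefree_iff_prime_squarefree] at hsq
        push Not at hsq
        obtain ⟨l, hl, hll⟩ := hsq
        have hld : l ∣ b := (dvd_mul_right l l).trans hll
        have hl2' : l ≠ 2 := by
          rintro rfl
          exact e4 hll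
        have hl3' : l ≠ 3 := by
          rintro rfl
          exact e3 hld
        have hl5 := hp5 l hl hl2' hl3'
        refine ⟨l, ?_, Or.inl (by rw [pow_two]; exact hll)⟩
        rw [hQdef, Finset.mem_filter, Finset.mem_Icc]
        refine ⟨⟨by omega, ?_⟩, hl, hl5, fun hlN => hPb l hl hl5 hlN hld⟩
        rw [hs, Nat.le_sqrt]
        exact (Nat.le_of_dvd (by omega) hll).trans hbN.le
    obtain ⟨l, hlQ, hl⟩ := hmem
    rw [Finset.mem_biUnion]
    refine ⟨l, hlQ, ?_⟩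
    rw [hQdef, Finset.mem_filter] at hlQ
    obtain ⟨-, hlp, hl5, -⟩ := hlQ
    rw [Finset.mem_union]
    rcases hl with hl | hl
    · left
      unfold S
      rw [Finset.mem_filter, Finset.mem_range]
      exact ⟨htH, (hc1 l hlp hl5 t).1 hl, htP⟩
    · right
      unfold S
      rw [Finset.mem_filter, Finset.mem_range]
      refine ⟨htH, (hc2 l hlp hl5 t).1 ?_, htP⟩
      have h5 : (a0 + (l ^ 2 - 1) * N) + 12 * t + (N - b) = l ^ 2 * N := by
        obtain ⟨k, hk⟩ : ∃ k, l ^ 2 = k + 1 := ⟨l ^ 2 - 1, by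
          have := pow_pos hlp.pos 2; omega⟩
        rw [hk, Nat.add_sub_cancel, Nat.add_mul]
        omega
      have h6 : l ^ 2 ∣ (a0 + (l ^ 2 - 1) * N) + 12 * t + (N - b) := by
        rw [h5]
        exact dvd_mul_right _ _
      exact (Nat.dvd_add_left hl).1 h6
  have hcard := (Finset.card_le_card hsub).trans Finset.card_biUnion_le
  set W : ℝ := (2 : ℝ) ^ P.card with hW
  set Φ : ℝ := ∏ l ∈ P, (1 - 1 / (l : ℝ)) with hΦ
  have hW1 : 1 ≤ W := one_le_pow₀ (by norm_num)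
  have hΦ0 : 1 / W ≤ Φ := prod_ge P hP
  have hΦ1 : 0 ≤ Φ := prod_nonneg' P hP
  have hlow := sieve H r P hP 1 0 one_pos (fun l _ => Nat.coprime_one_left l)
  rw [abs_le] at hlow
  have hup : ∀ l ∈ Q, ∀ c, ((S H r P (l ^ 2) c).card : ℝ) ≤ H * Φ * (1 / (l : ℝ) ^ 2) + W := by
    intro l hl c
    rw [hQdef, Finset.mem_filter] at hl
    obtain ⟨-, hlp, hl5, hlN⟩ := hl
    have h1 := sieve H r P hP (l ^ 2) c (pow_pos hlp.pos 2) (fun l' hl' =>
      Nat.Coprime.pow_left 2 ((Nat.coprime_primes hlp (hP l' hl')).2 fun h => hlN (h ▸ hPN l' hl')))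
    rw [abs_le] at h1
    have h2 : (H : ℝ) / ((l ^ 2 : ℕ) : ℝ) * Φ = H * Φ * (1 / (l : ℝ) ^ 2) := by
      push_cast
      ring
    linarith [h1.2]
  have hsum : ((∑ l ∈ Q, (S H r P (l ^ 2) (c1 l) ∪ S H r P (l ^ 2) (c2 l)).card : ℕ) : ℝ) ≤
      H * Φ * (1 / 2) + 2 * s * W := by
    push_cast
    calc ∑ l ∈ Q, (((S H r P (l ^ 2) (c1 l) ∪ S H r P (l ^ 2) (c2 l)).card : ℕ) : ℝ)
        ≤ ∑ l ∈ Q, (2 * (H * Φ) * (1 / (l : ℝ) ^ 2) + 2 * W) := by
          refine Finset.sum_le_sum fun l hl => ?_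
          have h1 : (((S H r P (l ^ 2) (c1 l) ∪ S H r P (l ^ 2) (c2 l)).card : ℕ) : ℝ) ≤
              (S H r P (l ^ 2) (c1 l)).card + (S H r P (l ^ 2) (c2 l)).card := by
            exact_mod_cast Finset.card_union_le _ _
          have h2 := hup l hl (c1 l)
          have h3 := hup l hl (c2 l)
          linarith
      _ = 2 * (H * Φ) * ∑ l ∈ Q, 1 / (l : ℝ) ^ 2 + Q.card * (2 * W) := by
          rw [Finset.sum_add_distrib, Finset.mul_sum, Finset.sum_const, nsmul_eq_mul]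
      _ ≤ 2 * (H * Φ) * (1 / 4) + s * (2 * W) := by
          have h1 : ∑ l ∈ Q, 1 / (l : ℝ) ^ 2 ≤ 1 / 4 := sum_sq Q fun l hl =>
            (Finset.mem_filter.1 hl).2.2.1
          have h2 : (Q.card : ℝ) ≤ s := by
            have h3 : Q.card ≤ (Finset.Icc 1 s).card := Finset.card_le_card (Finset.filter_subset _ _)
            rw [Nat.card_Icc, Nat.add_sub_cancel] at h3
            exact_mod_cast h3
          have h4 : (0 : ℝ) ≤ 2 * (H * Φ) := by positivity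
          have h5 : (0 : ℝ) ≤ 2 * W := by positivity
          exact add_le_add (mul_le_mul_of_nonneg_left h1 h4) (mul_le_mul_of_nonneg_right h2 h5)
      _ = H * Φ * (1 / 2) + 2 * s * W := by ring
  have hcard' : ((S H r P 1 0).card : ℝ) ≤ H * Φ * (1 / 2) + 2 * s * W :=
    le_trans (by exact_mod_cast hcard) hsum
  have hs1' : (1 : ℝ) ≤ s := by exact_mod_cast hs1
  have h1 : (H : ℝ) * Φ ≤ 6 * W * s := by
    have h2 := hlow.1
    push_cast at h2
    rw [div_one] at h2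
    nlinarith
  have h2 : (H : ℝ) ≤ 6 * W ^ 2 * s := by
    have h3 : (H : ℝ) * (1 / W) ≤ 6 * W * s :=
      (mul_le_mul_of_nonneg_left hΦ0 (Nat.cast_nonneg H)).trans h1
    have h4 : (0 : ℝ) < W := by linarith
    rw [mul_one_div, div_le_iff₀ h4] at h3
    linarith
  have h3 : H ≤ 6 * (2 ^ P.card) ^ 2 * s := by
    rw [hW] at h2
    exact_mod_cast h2
  have h5 := final_ineq2 N H K (2 ^ P.card) C s hN h3 hss (hC N hN P hP hPN) hKH
  omega

end Pool.Agent.TH669.KS.NT
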