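import Pool.Agent.TH669.KS.Eval

set_option autoImplicit false
set_option linter.unusedSectionVars false

/-!
# The two kinds of decompositions into blocks
-/

namespace Pool.Agent.TH669.KS

open Finset
open Pool.Agent.H119R2.Kp (GP PV)
open Pool.Agent.TH669.KC (HCR)

/-- a proper subgroup has at most `|B| / minFac |B|` elements -/
theorem card_proper {B : Type} [AddCommGroup B] [Finite B] (H : AddSubgroup B) (hH : H ≠ ⊤) :
    Nat.card H * (Nat.card B).minFac ≤ Nat.card B := by
  have h1 := H.card_mul_index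
  have h2 : H.index ≠ 1 := fun h => hH (AddSubgroup.index_eq_one.1 h)
  have h3 : (Nat.card B).minFac ≤ H.index := by
    refine Nat.minFac_le_of_dvd ?_ ⟨Nat.card H, by rw [← h1]; ring⟩
    have h4 : H.index ≠ 0 := AddSubgroup.index_ne_zero_of_finite
    omega
  calc Nat.card H * (Nat.card B).minFac ≤ Nat.card H * H.index := Nat.mul_le_mul_left _ h3
    _ = Nat.card B := h1

section blocks

variable (p : ℕ) {P R : Type} (b : R → ℕ)

/-- the blocks: groups of prime order `p` and cyclic groups -/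
def Bl (P : Type) : P ⊕ R → Type
  | .inl _ => ZMod p
  | .inr j => ZMod (b j)

instance instBlA : ∀ i : P ⊕ R, AddCommGroup (Bl p b P i)
  | .inl _ => inferInstanceAs (AddCommGroup (ZMod p))
  | .inr j => inferInstanceAs (AddCommGroup (ZMod (b j)))

instance instBlD : ∀ i : P ⊕ R, DecidableEq (Bl p b P i)
  | .inl _ => inferInstanceAs (DecidableEq (ZMod p))
  | .inr j => inferInstanceAs (DecidableEq (ZMod (b j)))

instance instBlF [NeZero p] [∀ j, NeZero (b j)] : ∀ i : P ⊕ R, Fintype (Bl p b P i)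
  | .inl _ => inferInstanceAs (Fintype (ZMod p))
  | .inr j => inferInstanceAs (Fintype (ZMod (b j)))

/-- the sizes -/
def bs : P ⊕ R → ℕ := Sum.elim (fun _ => p) b

theorem card_Bl [NeZero p] [∀ j, NeZero (b j)] (i : P ⊕ R) :
    Fintype.card (Bl p b P i) = bs p b i := by
  rcases i with i | j
  · exact ZMod.card p
  · exact ZMod.card (b j)

variable [DecidableEq P] [DecidableEq R]

/-- translations of the first blocks -/
def gA (x : P) : ∀ i, Bl p b P i
  | .inl i => if i = x then (1 : ZMod p) else (0 : ZMod p)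
  | .inr j => (0 : ZMod (b j))

/-- the translation of the cyclic blocks -/
def gC : ∀ i, Bl p b P i
  | .inl _ => (0 : ZMod p)
  | .inr j => (1 : ZMod (b j))

theorem p_gA (x : P) : p • gA (R := R) p b x = 0 := by
  funext i
  rcases i with i | j
  · show p • (if i = x then (1 : ZMod p) else (0 : ZMod p)) = (0 : ZMod p)
    rw [nsmul_eq_mul, CharP.cast_eq_zero, zero_mul]
  · show p • (0 : ZMod (b j)) = (0 : ZMod (b j))
    rw [smul_zero]

theorem gen [Fintype P] [NeZero p]
    (hcrt : ∀ y : ∀ j, ZMod (b j), ∃ m : ℕ, ∀ j, (m : ZMod (b j)) = y j) (t : ∀ i, Bl p b P i) :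
    t ∈ AddSubgroup.closure (insert (gC p b) (Set.range (gA (P := P) p b))) := by
  obtain ⟨m, hm⟩ := hcrt fun j => t (.inr j)
  have h1 : t = m • gC p b + ∑ i0 : P, (show ZMod p from t (.inl i0)).val • gA p b i0 := by
    funext i
    rw [Pi.add_apply, Pi.smul_apply, Finset.sum_apply]
    rcases i with i | j
    · show (show ZMod p from t (.inl i)) = m • (0 : ZMod p) +
        ∑ i0 : P, (show ZMod p from t (.inl i0)).val • (if i = i0 then (1 : ZMod p) else 0)
      rw [smul_zero, zero_add, Finset.sum_eq_single i]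
      · rw [if_pos rfl, nsmul_eq_mul, mul_one, ZMod.natCast_zmod_val]
      · intro i0 _ h
        rw [if_neg (Ne.symm h), smul_zero]
      · intro h
        exact absurd (Finset.mem_univ _) h
    · show (show ZMod (b j) from t (.inr j)) = m • (1 : ZMod (b j)) +
        ∑ i0 : P, (show ZMod p from t (.inl i0)).val • (0 : ZMod (b j))
      simp only [smul_zero, Finset.sum_const_zero, add_zero, nsmul_eq_mul, mul_one]
      exact (hm j).symm
  rw [h1]
  refine AddSubgroup.add_mem _ (AddSubgroup.nsmul_mem _ (AddSubgroup.subset_closure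
    (Set.mem_insert _ _)) _) (AddSubgroup.sum_mem _ fun i0 _ => AddSubgroup.nsmul_mem _
    (AddSubgroup.subset_closure (Set.mem_insert_of_mem _ (Set.mem_range_self _))) _)

theorem zmod_sq {m : ℕ} (hm : Squarefree m) (x : ZMod m) : Squarefree (addOrderOf x) := by
  refine hm.squarefree_of_dvd ?_
  rw [addOrderOf_dvd_iff_nsmul_eq_zero, nsmul_eq_mul, CharP.cast_eq_zero, zero_mul]

theorem crt2 (b : Bool → ℕ) (hcop : Nat.Coprime (b true) (b false)) (hb : ∀ j, b j ≠ 0)
    (y : ∀ j, ZMod (b j)) : ∃ m : ℕ, ∀ j, (m : ZMod (b j)) = y j := by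
  have : ∀ j, NeZero (b j) := fun j => ⟨hb j⟩
  obtain ⟨t, ht1, ht2⟩ := Nat.chineseRemainder hcop (y true).val (y false).val
  refine ⟨t, fun j => ?_⟩
  cases j
  · have := (ZMod.natCast_eq_natCast_iff _ _ (b false)).2 ht2
    rw [this, ZMod.natCast_zmod_val]
  · have := (ZMod.natCast_eq_natCast_iff _ _ (b true)).2 ht1
    rw [this, ZMod.natCast_zmod_val]

end blocks

/-- `n = j p + b₀ + b₁` -/
theorem split {n q s : ℕ} {Q : SimpleGraph (Fin n) → Prop} (hQ : GP n q Q)
    (hlow : ∀ H, HasC H s → Q H) (hup : ∀ H, Q H → HCR 0 s H) (hq : q < n.choose 2) (hs : 3 ≤ s)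
    (p j b0 b1 : ℕ) (hp : p.Prime) (hn : n = j * p + (b0 + b1)) (h0 : Squarefree b0)
    (h1 : Squarefree b1) (hcop : Nat.Coprime b0 b1) (hp1 : s ≤ p) (hp2 : p < 2 * s) (h01 : s ≤ b0)
    (h02 : b0 < 2 * s) (h11 : s ≤ b1) (h12 : b1 < 2 * s) : False := by
  classical
  have : Fact p.Prime := ⟨hp⟩
  have : NeZero p := ⟨hp.ne_zero⟩
  set b : Bool → ℕ := fun c => if c = true then b0 else b1 with hb
  have hbt : b true = b0 := rfl
  have hbf : b false = b1 := rfl
  have hb0 : ∀ c, b c ≠ 0 := by
    intro c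
    cases c
    · rw [hbf]; omega
    · rw [hbt]; omega
  have : ∀ c, NeZero (b c) := fun c => ⟨hb0 c⟩
  have hbs1 : ∀ i : Fin j ⊕ Bool, s ≤ bs p b i := by
    rintro (i | c)
    · exact hp1
    · cases c
      · exact h11
      · exact h01
  have hbs2 : ∀ i : Fin j ⊕ Bool, bs p b i < 2 * s := by
    rintro (i | c)
    · exact hp2
    · cases c
      · exact h12
      · exact h02
  have hbsq : ∀ c, Squarefree (b c) := by
    intro c
    cases c
    · exact h1
    · exact h0
  refine blocks (A := Bl p b (Fin j)) hQ hlow hup ?_ p (gA p b) (gC p b) (p_gA p b)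
    (gen p b (crt2 b hcop hb0)) hq hs ⟨.inr true⟩ ?_ ?_ ?_
  · rw [Fintype.card_sigma, Finset.sum_congr rfl fun i _ => card_Bl p b i, Fintype.sum_sum_type, hn]
    simp [bs, hb]
  · intro i
    rw [card_Bl]
    exact hbs1 i
  · intro i H hH
    have h3 := card_proper H hH
    have h4 := hbs1 i
    have h5 := hbs2 i
    have h6 : Nat.card (Bl p b (Fin j) i) = bs p b i := by
      rw [Nat.card_eq_fintype_card, card_Bl]
    rw [h6] at h3
    have h7 : 2 ≤ (bs p b i).minFac := (Nat.minFac_prime (by omega)).two_le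
    have h8 : Nat.card H * 2 ≤ Nat.card H * (bs p b i).minFac := Nat.mul_le_mul_left _ h7
    omega
  · rintro (i | c) x
    · exact zmod_sq hp.squarefree x
    · exact zmod_sq (hbsq c) x

/-! ### one block -/

/-- `n = p ^ a m` with a squarefree `m` not divisible by `p` -/
theorem single {n q s : ℕ} {Q : SimpleGraph (Fin n) → Prop} (hQ : GP n q Q)
    (hlow : ∀ H, HasC H s → Q H) (hup : ∀ H, Q H → HCR 0 s H) (hq : q < n.choose 2) (hs : 3 ≤ s)
    (p a m : ℕ) (hp : p.Prime) (hn : n = p ^ a * m) (hm : Squarefree m) (hpm : ¬ p ∣ m)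
    (hsn : s ≤ n) (hsn2 : n < s * n.minFac) : False := by
  classical
  have : Fact p.Prime := ⟨hp⟩
  have hm0 : m ≠ 0 := hm.ne_zero
  have : NeZero m := ⟨hm0⟩
  have hcard : Fintype.card ((Fin a → ZMod p) × ZMod m) = n := by
    rw [Fintype.card_prod, Fintype.card_fun, ZMod.card, ZMod.card, Fintype.card_fin, hn]
  refine blocks (I := Unit) (A := fun _ => (Fin a → ZMod p) × ZMod m) hQ hlow hup ?_ p
    (ι := Fin a) (fun i _ => (Pi.single i 1, 0)) (fun _ => (0, 1)) ?_ ?_ hq hs ⟨()⟩ ?_ ?_ ?_
  · rw [Fintype.card_sigma, Finset.univ_unique, Finset.sum_singleton, hcard]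
  · intro i
    funext u
    rw [Pi.smul_apply, Prod.smul_mk, smul_zero]
    refine Prod.ext ?_ rfl
    funext l
    show p • (Pi.single i (1 : ZMod p) : Fin a → ZMod p) l = 0
    rw [nsmul_eq_mul, CharP.cast_eq_zero, zero_mul]
  · intro t
    have h1 : t = (t ()).2.val • (fun _ => ((0 : Fin a → ZMod p), (1 : ZMod m))) +
        ∑ i : Fin a, ((t ()).1 i).val • (fun _ => (Pi.single i (1 : ZMod p), (0 : ZMod m))) := by
      funext u
      rw [Pi.add_apply, Finset.sum_apply]
      refine Prod.ext ?_ ?_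
      · rw [Prod.fst_add, Prod.fst_sum]
        simp only [Pi.smul_apply, Prod.smul_mk, smul_zero, zero_add]
        funext l
        rw [Finset.sum_apply, Finset.sum_eq_single l]
        · simp
        · intro i _ hi
          simp [Ne.symm hi]
        · intro h
          exact absurd (Finset.mem_univ _) h
      · rw [Prod.snd_add, Prod.snd_sum]
        simp only [Pi.smul_apply, Prod.smul_mk, smul_zero, Finset.sum_const_zero, add_zero,
          nsmul_eq_mul, mul_one]
        exact (ZMod.natCast_zmod_val _).symm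
    rw [h1]
    refine AddSubgroup.add_mem _ (AddSubgroup.nsmul_mem _ (AddSubgroup.subset_closure
      (Set.mem_insert _ _)) _) (AddSubgroup.sum_mem _ fun i0 _ => AddSubgroup.nsmul_mem _
      (AddSubgroup.subset_closure (Set.mem_insert_of_mem _ (Set.mem_range_self _))) _)
  · intro _
    rw [hcard]
    exact hsn
  · intro _ H hH
    have h3 := card_proper H hH
    rw [Nat.card_eq_fintype_card (α := (Fin a → ZMod p) × ZMod m), hcard] at h3
    by_contra hge
    rw [not_lt] at hge
    have := Nat.mul_le_mul_right n.minFac hge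
    omega
  · intro _ x
    have hsq : Squarefree (p * m) :=
      (Nat.squarefree_mul ((Nat.Prime.coprime_iff_not_dvd hp).2 hpm)).2 ⟨hp.squarefree, hm⟩
    refine hsq.squarefree_of_dvd ?_
    rw [addOrderOf_dvd_iff_nsmul_eq_zero]
    refine Prod.ext ?_ ?_
    · funext l
      show (p * m) • x.1 l = 0
      rw [nsmul_eq_mul, Nat.cast_mul, CharP.cast_eq_zero, zero_mul, zero_mul]
    · show (p * m) • x.2 = 0
      rw [nsmul_eq_mul, Nat.cast_mul, CharP.cast_eq_zero (ZMod m) m, mul_zero, zero_mul]

end Pool.Agent.TH669.KS
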